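import Pool.Agent.H879.Star.Cases

/-! Standard classes whose degree is large with respect to the tenth multiplicity. -/

set_option autoImplicit false

namespace Pool.Agent.H879.Star

open Finset Pool.Agent.TH176.Nag Pool.Agent.TH603.Sur H932R3
open Pool.Agent.TH2 Pool.Agent.TH2.NU Pool.Agent.Y205.MD Pool.Agent.Y205.FW Pool.Agent.Y205.AV
open Pool.Agent.K7.H33.BP
open Pool.Agent.Q310.FP (Standard GE Small4 Rem4 std_or4)
open Pool.Agent.TH387.SH (TF coe_TF card_TF)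

theorem nineStd_of {n d : ℕ} (hn : 3 ≤ n) {w : Fin n → ℕ} (hs : Standard d w)
    {I : Finset (Fin n)} (hI : I.card ≤ 9) : NineStd w d I := by
  classical
  refine ⟨hI, fun K hK hK3 => ?_⟩
  obtain ⟨K', h1, h2⟩ := Finset.exists_superset_card_eq (s := K) (n := 3) hK3
    (by rw [Fintype.card_fin]; exact hn)
  have h3 : ∑ i ∈ K, w i ≤ ∑ i ∈ K', w i := sum_le_sum_of_subset h1
  obtain ⟨x, y, z, hxy, hxz, hyz, rfl⟩ := card_eq_three.1 h2
  rw [sum_insert (by simp [hxy, hxz]), sum_insert (by simp [hyz]), sum_singleton] at h3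
  have := hs x y z hxy hxz hyz
  omega

theorem ge_of_crit {n d : ℕ} {w : Fin n → ℕ}
    (h : ((d + 1) * (d + 2) ≤ ∑ i, w i * (w i + 1) → Emp w (TZ d)) ∧
      (∑ i, w i * (w i + 1) ≤ (d + 1) * (d + 2) → Sur w (TZ d))) : GE d w := by
  obtain ⟨F, hF, hF'⟩ := Pool.Agent.H879.Room.open_crit (m := w) (B := fun d' => d' = d)
    (by rintro d' rfl; exact h)
  refine GE.of_open ⟨F, hF, fun {L} _ _ P hP => hF' P hP d rfl⟩

theorem sum_list {n k : ℕ} {w : Fin n → ℕ} {I : Finset (Fin n)} {a1 a2 a3 a4 a5 a6 a7 a8 a9 : ℕ}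
    (h : I.val.map w + Multiset.replicate k 0 =
        {a1} + {a2} + {a3} + {a4} + {a5} + {a6} + {a7} + {a8} + {a9}) (t : ℕ → ℕ) (ht : t 0 = 0) :
    ∑ i ∈ I, t (w i) = t a1 + t a2 + t a3 + t a4 + t a5 + t a6 + t a7 + t a8 + t a9 := by
  have h1 := congrArg (fun M : Multiset ℕ => (M.map t).sum) h
  simp only [Multiset.map_add, Multiset.sum_add, Multiset.map_replicate, Multiset.sum_replicate,
    Multiset.map_singleton, Multiset.sum_singleton, ht, smul_zero, add_zero,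
    Multiset.map_map] at h1
  rw [← h1]
  rfl

/-- **Standard classes of large degree with respect to the tenth multiplicity.** -/
theorem ge_star {n d μ : ℕ} {w : Fin n → ℕ} {I : Finset (Fin n)} (hn : 4 ≤ n)
    (hs : Standard d w) (hI : I.card ≤ 9) (hμ : ∀ i, i ∉ I → w i ≤ μ)
    (hd : 10000000000000000000000000000000 * (μ + 1) ^ 14 ≤ d) : GE d w := by
  classical
  have hstd := nineStd_of (by omega) hs hI
  by_cases h1 : 2 * ((30000000 : ℕ) : ℤ) * (((μ : ℤ) + 1) ^ 2 * (d + μ + 2)) ≤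
      ((d : ℤ) + 1) * (d + 2) - ∑ i ∈ I, (w i : ℤ) * (w i + 1)
  · exact ge_of_crit (dec_nine hstd hμ (numericK hμ (Or.inr h1)))
  push Not at h1
  obtain ⟨a1, a2, a3, a4, a5, a6, a7, a8, a9, k, q1, q2, q3, q4, q5, q6, q7, q8, q9, hMk⟩ :=
    nine_list hstd
  have hsum := sum_list hMk
  -- the numbers
  obtain ⟨y, hy⟩ : ∃ y, y = μ + 1 := ⟨_, rfl⟩
  have hy1 : 1 ≤ y := by omega
  rw [← hy] at hd
  have y14 : ∀ j, j ≤ 14 → y ^ j ≤ y ^ 14 := fun j hj => Nat.pow_le_pow_right hy1 hj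
  have hyy : y ≤ y ^ 14 := by simpa using y14 1 (by norm_num)
  have y2p : 1 ≤ y ^ 2 := Nat.one_le_pow _ _ hy1
  have hS2 := hsum (fun x => x * (x + 1)) rfl
  have hcast : ∑ i ∈ I, (w i : ℤ) * (w i + 1) = ((∑ i ∈ I, w i * (w i + 1) : ℕ) : ℤ) := by
    push_cast
    rfl
  rw [hcast, hS2] at h1
  have hmem : ∀ i ∈ I, w i ≤ a1 := by
    intro i hi
    have h2 : w i ∈ I.val.map w + Multiset.replicate k 0 :=
      Multiset.mem_add.2 (Or.inl (Multiset.mem_map_of_mem w hi))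
    rw [hMk] at h2
    simp only [Multiset.mem_add, Multiset.mem_singleton] at h2
    omega
  -- the first case: all multiplicities up to a third of the degree
  by_cases ha1 : 3 * a1 ≤ d
  · refine ge_of_crit (Pool.Agent.H879.Room.large_degree (μ := μ) (A := I)
      (fun i hi => ?_) ?_ hμ ?_)
    · have := hmem i hi
      omega
    · have h3 : ∑ i ∈ I, 3 * w i ≤ ∑ i ∈ I, d := sum_le_sum fun i hi => by
        have := hmem i hi
        omega
      rw [sum_const, smul_eq_mul, ← mul_sum] at h3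
      have h4 : I.card * d ≤ 9 * d := Nat.mul_le_mul_right _ hI
      omega
    · have h3 : 2304000000000000 * y ^ 4 ≤ d := by
        have := y14 4 (by norm_num)
        omega
      rw [hy] at h3
      exact_mod_cast h3
  push Not at ha1
  -- the room
  obtain ⟨R, hR⟩ : ∃ R : ℤ, R = ((d : ℤ) + 1) * (d + 2) - ((a1 : ℤ) * (a1 + 1) + a2 * (a2 + 1) +
      a3 * (a3 + 1) + a4 * (a4 + 1) + a5 * (a5 + 1) + a6 * (a6 + 1) + a7 * (a7 + 1) +
      a8 * (a8 + 1) + a9 * (a9 + 1)) := ⟨_, rfl⟩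
  obtain ⟨r1, r2, r3⟩ := room_nine (d := d) (a1 := a1) (a2 := a2) (a3 := a3) (a4 := a4) (a5 := a5)
    (a6 := a6) (a7 := a7) (a8 := a8) (a9 := a9) (by omega) (by omega) (by omega) (by omega)
    (by omega) (by omega) (by omega) (by omega) (by omega) (by omega) hR
  have hRlt : R < 60000001 * ((y : ℤ) ^ 2 * d) := by
    have h3 : R < 2 * ((30000000 : ℕ) : ℤ) * (((μ : ℤ) + 1) ^ 2 * (d + μ + 2)) := by
      refine lt_of_le_of_lt (le_of_eq ?_) h1
      rw [hR]
      push_cast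
      ring
    have h4 : ((μ : ℤ) + 1) = y := by rw [hy]; push_cast; ring
    rw [h4] at h3
    have h5 : 60000000 * ((μ : ℤ) + 2) ≤ d := by
      have h6 : 60000000 * (μ + 2) ≤ d := by omega
      exact_mod_cast h6
    have h6 : (0 : ℤ) < (y : ℤ) ^ 2 := by positivity
    have h7 : (y : ℤ) ^ 2 * (60000000 * ((μ : ℤ) + 2)) ≤ (y : ℤ) ^ 2 * d :=
      mul_le_mul_of_nonneg_left h5 h6.le
    have e : 2 * ((30000000 : ℕ) : ℤ) * ((y : ℤ) ^ 2 * (d + μ + 2)) =
        60000000 * ((y : ℤ) ^ 2 * d) + (y : ℤ) ^ 2 * (60000000 * ((μ : ℤ) + 2)) := by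
      push_cast
      ring
    rw [e] at h3
    linarith
  have hdpos : (0 : ℤ) < d := by
    have : 0 < d := by omega
    exact_mod_cast this
  by_cases ha9 : 12 * a9 < d
  · -- one very large multiplicity
    rcases std_or4 hn d w hs with h | ⟨r, σ, hanti, hsm⟩
    · exact h
    exfalso
    have h3 := r3 (by exact_mod_cast ha9)
    have hk : (d : ℤ) - a1 < 480000008 * (y : ℤ) ^ 2 := by
      have h4 : (d : ℤ) * (d - a1) < d * (480000008 * (y : ℤ) ^ 2) := by
        have : (d : ℤ) * (480000008 * (y : ℤ) ^ 2) = 8 * (60000001 * ((y : ℤ) ^ 2 * d)) := by ring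
        linarith
      exact lt_of_mul_lt_mul_left h4 hdpos.le
    have n0 : ((0 : Fin (r + 4)) : ℕ) = 0 := rfl
    have n1 : ((1 : Fin (r + 4)) : ℕ) = 1 := Nat.mod_eq_of_lt (show 1 < r + 4 by omega)
    have n2 : ((2 : Fin (r + 4)) : ℕ) = 2 := Nat.mod_eq_of_lt (show 2 < r + 4 by omega)
    have n3 : ((3 : Fin (r + 4)) : ℕ) = 3 := Nat.mod_eq_of_lt (show 3 < r + 4 by omega)
    have t01 : w (σ 1) ≤ w (σ 0) := hanti (by rw [Fin.le_def, n1, n0]; omega)
    have t12 : w (σ 2) ≤ w (σ 1) := hanti (by rw [Fin.le_def, n1, n2]; omega)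
    have t23 : w (σ 3) ≤ w (σ 2) := hanti (by rw [Fin.le_def, n2, n3]; omega)
    have hne : ∀ a b : Fin (r + 4), (a : ℕ) ≠ (b : ℕ) → σ a ≠ σ b := fun a b h h2 =>
      h (congrArg Fin.val (σ.injective h2))
    have t3 := hs (σ 0) (σ 1) (σ 2) (hne _ _ (by rw [n0, n1]; omega))
      (hne _ _ (by rw [n0, n2]; omega)) (hne _ _ (by rw [n1, n2]; omega))
    -- the largest multiplicity
    have hbig : a1 ≤ w (σ 0) := by
      have h4 : a1 ∈ I.val.map w + Multiset.replicate k 0 := by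
        rw [hMk]
        simp
      rcases Multiset.mem_add.1 h4 with h5 | h5
      · obtain ⟨i, _, hi⟩ := Multiset.mem_map.1 h5
        rw [← hi]
        obtain ⟨j, rfl⟩ := σ.surjective i
        exact hanti (by rw [Fin.le_def, n0]; omega)
      · rw [Multiset.eq_of_mem_replicate h5]
        exact Nat.zero_le _
    have hp := hsm.prod
    obtain ⟨u, hu⟩ : ∃ u, u = w (σ 3) := ⟨_, rfl⟩
    rw [← hu] at hp t23
    have hkN : d < a1 + 480000008 * y ^ 2 := by
      have h4 : (d : ℤ) < a1 + 480000008 * (y : ℤ) ^ 2 := by linarith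
      exact_mod_cast h4
    have hu2 : u + 1 ≤ 240000005 * y ^ 2 := by omega
    -- `d (1 + u) ≤ ...`
    have hd2 : d ≤ 2 * w (σ 0) := by
      have := y14 2 (by norm_num)
      omega
    have h5 : d * (u + 1) ≤ d + 1 + (w (σ 0) * w (σ 1) + w (σ 0) * w (σ 2) +
        w (σ 1) * w (σ 2)) := by
      have g1 : w (σ 0) * u ≤ w (σ 0) * w (σ 1) := Nat.mul_le_mul_left _ (by omega)
      have g2 : w (σ 0) * u ≤ w (σ 0) * w (σ 2) := Nat.mul_le_mul_left _ (by omega)
      have g3 : d * u ≤ 2 * w (σ 0) * u := Nat.mul_le_mul_right _ hd2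
      have e : d * (u + 1) = d * u + d := by ring
      have e2 : 2 * w (σ 0) * u = 2 * (w (σ 0) * u) := by ring
      omega
    have h6 : d * (u + 1) < 65536 * (u + 1) ^ 3 * (u + 1) := by
      have e : 65536 * (u + 1) ^ 3 * (u + 1) = 65536 * (u + 1) ^ 4 := by ring
      rw [e]
      omega
    have h7 : d < 65536 * (u + 1) ^ 3 := lt_of_mul_lt_mul_right h6 (Nat.zero_le _)
    have h8 : (u + 1) ^ 3 ≤ (240000005 * y ^ 2) ^ 3 := Nat.pow_le_pow_left hu2 3
    have h9 : (240000005 * y ^ 2) ^ 3 = 13824000864000018000000125 * y ^ 6 := by ring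
    rw [h9] at h8
    have h10 := y14 6 (by norm_num)
    omega
  · -- near the anticanonical ray
    obtain ⟨δ, hδ⟩ : ∃ δ : ℕ, (a1 + a2 + a3 + a4 + a5 + a6 + a7 + a8 + a9) + δ = 3 * d :=
      ⟨3 * d - (a1 + a2 + a3 + a4 + a5 + a6 + a7 + a8 + a9), by omega⟩
    have hδZ : (3 * (d : ℤ) - (a1 + a2 + a3 + a4 + a5 + a6 + a7 + a8 + a9)) = δ := by omega
    rw [hδZ] at r1 r2
    have hδ1 : 1 ≤ δ := by exact_mod_cast r1
    obtain ⟨M9, hM9⟩ : ∃ M9 : Multiset ℕ, M9 =
      {a1} + {a2} + {a3} + {a4} + {a5} + {a6} + {a7} + {a8} + {a9} := ⟨_, rfl⟩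
    have hM : ∀ t : ℕ → ℕ, ∑ i, t ((![a1, a2, a3, a4, a5, a6, a7, a8, a9] : Fin 9 → ℕ) i) =
        (M9.map t).sum := by
      intro t
      rw [hM9]
      simp [Fin.sum_univ_succ]
    have hind : crkM (TF d) M9 + NU.condM M9 ≤ (TF d).card := by
      rw [hM9]
      exact (pack9 (B := 2) (δ := 0) le_rfl q1 q2 q3 q4 q5 q6 q7 q8 (by norm_num) (by omega)
        (by omega)).ind
    obtain ⟨ρ, hρ⟩ : ∃ ρ, (TF d).card = NU.condM M9 + ρ := ⟨(TF d).card - NU.condM M9, by omega⟩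
    have h2ρ : (2 * ρ : ℤ) = R := by
      have h3 := two_card_TF d
      have h4 : 2 * NU.condM M9 = a1 * (a1 + 1) + a2 * (a2 + 1) + a3 * (a3 + 1) +
          a4 * (a4 + 1) + a5 * (a5 + 1) + a6 * (a6 + 1) + a7 * (a7 + 1) + a8 * (a8 + 1) +
          a9 * (a9 + 1) := by
        have h5 : ∀ x : ℕ, 2 * (x + 1).choose 2 = x * (x + 1) := fun x =>
          Pool.Agent.TH2.NU.two_choose x
        unfold Pool.Agent.TH2.NU.condM
        rw [hM9]
        simp only [Multiset.map_add, Multiset.sum_add, Multiset.map_singleton,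
          Multiset.sum_singleton]
        rw [← h5 a1, ← h5 a2, ← h5 a3, ← h5 a4, ← h5 a5, ← h5 a6, ← h5 a7, ← h5 a8, ← h5 a9]
        ring
      rw [hρ] at h3
      have h5 : 2 * (NU.condM M9 : ℤ) + 2 * ρ = ((d : ℤ) + 1) * (d + 2) := by
        have : 2 * (NU.condM M9 + ρ) = (d + 1) * (d + 2) := h3
        have h6 : ((2 * (NU.condM M9 + ρ) : ℕ) : ℤ) = (((d + 1) * (d + 2) : ℕ) : ℤ) := by
          rw [this]
        push_cast at h6
        linarith
      have h6 : 2 * (NU.condM M9 : ℤ) = (a1 : ℤ) * (a1 + 1) + a2 * (a2 + 1) + a3 * (a3 + 1) +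
          a4 * (a4 + 1) + a5 * (a5 + 1) + a6 * (a6 + 1) + a7 * (a7 + 1) + a8 * (a8 + 1) +
          a9 * (a9 + 1) := by exact_mod_cast h4
      rw [hR]
      linarith
    have haδ : a9 * δ ≤ ρ := by
      have h3 : 2 * ((a9 : ℤ) * δ) ≤ 2 * ρ := by rw [h2ρ]; exact r2
      have h4 : (a9 : ℤ) * δ ≤ ρ := by linarith
      exact_mod_cast h4
    have h9d : d ≤ 12 * a9 := by omega
    have ha9δ : a9 ≤ a9 * δ := Nat.le_mul_of_pos_right _ hδ1
    -- the bound of δ
    have hδb : δ < 360000006 * y ^ 2 := by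
      have h3 : 2 * ((a9 : ℤ) * δ) < 60000001 * ((y : ℤ) ^ 2 * d) := lt_of_le_of_lt r2 hRlt
      have h4 : 2 * (a9 * δ) < 60000001 * (y ^ 2 * d) := by exact_mod_cast h3
      have h5 : d * δ ≤ 12 * a9 * δ := Nat.mul_le_mul_right _ h9d
      have h6 : d * δ < d * (360000006 * y ^ 2) := by
        have e1 : 12 * a9 * δ = 6 * (2 * (a9 * δ)) := by ring
        have e2 : d * (360000006 * y ^ 2) = 6 * (60000001 * (y ^ 2 * d)) := by ring
        rw [e2]
        rw [e1] at h5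
        omega
      exact lt_of_mul_lt_mul_left h6 (Nat.zero_le _)
    have H1 : 16384 * (μ + 1) ^ 3 * δ ^ 2 ≤ ρ := by
      rw [← hy]
      have h3 : 16384 * y ^ 3 * δ ≤ a9 := by
        have h4 : 16384 * y ^ 3 * δ ≤ 16384 * y ^ 3 * (360000006 * y ^ 2) :=
          Nat.mul_le_mul_left _ hδb.le
        have e : 16384 * y ^ 3 * (360000006 * y ^ 2) = 5898240098304 * y ^ 5 := by ring
        rw [e] at h4
        have h5 := y14 5 (by norm_num)
        omega
      have h4 : 16384 * y ^ 3 * δ * δ ≤ a9 * δ := Nat.mul_le_mul_right _ h3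
      have e : 16384 * y ^ 3 * δ ^ 2 = 16384 * y ^ 3 * δ * δ := by ring
      rw [e]
      exact h4.trans haδ
    have H2 : 200000000000000000000000 * (μ + 1) ^ 14 ≤ ρ := by
      rw [← hy]
      omega
    refine ge_of_crit (crit_of_crkM hμ hMk fun W g hW hg => ?_)
    rw [← hM9] at hg ⊢
    refine star_big (a := a9) (δ := δ) hM ⟨8, rfl⟩ ?_ hδ1 ⟨0, ?_⟩ hind hρ haδ H1 H2 hW hg
    · rw [← hδ]
      simp [Fin.sum_univ_succ, add_assoc]
    · simpa using ha1

end Pool.Agent.H879.Star
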