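import Pool.Agent.H879.Star.Main
import Pool.Agent.H879.Star.Red

/-! The consequences for all classes. -/

set_option autoImplicit false

namespace Pool.Agent.H879.Star

open MvPolynomial Pool.Agent.TH167 Pool.Agent.TH167.SHDefs Pool.Agent.H932R3
open Pool.Agent.Q310.FP (Standard GE hZero chi)
open Pool.Agent.TH176.Nag
open Pool.Agent.TH603.Sur (Sur cond Emp_union Emp_emb TZ)
open Pool.Agent.TH387.SH (TF coe_TF card_TF)

/-- many positive multiplicities -/
theorem ge_many {n d : ℕ} {w : Fin n → ℕ}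
    (h : (d + 2).choose 2 ≤ (Finset.univ.filter fun i => 0 < w i).card) : GE d w := by
  classical
  have hemp : Emp w (TZ d) := by
    have h1 := Emp_union (w := fun _ : Fin 0 => 0) (T := ∅)
      (Pool.Agent.Y205.MD.Emp_nil _) (TF d)
    rw [Finset.empty_union, coe_TF] at h1
    obtain ⟨S, hS1, hS2⟩ := Finset.exists_subset_card_eq (s := Finset.univ.filter fun i => 0 < w i)
      (n := (TF d).card) (by rw [card_TF]; exact h)
    obtain ⟨e⟩ : Nonempty (Fin (TF d).card ≃ S) := ⟨(Fintype.equivFinOfCardEq (by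
      rw [Fintype.card_coe, hS2])).symm⟩
    refine Emp_emb (fun s : Fin 0 ⊕ Fin (TF d).card =>
      Sum.elim (fun i => i.elim0) (fun j => (e j : Fin n)) s) ?_ ?_ h1
    · rintro (i | i) (j | j) hij
      · exact i.elim0
      · exact i.elim0
      · exact j.elim0
      · exact congrArg Sum.inr (e.injective (Subtype.ext hij))
    · rintro (i | i)
      · exact i.elim0
      · exact (Finset.mem_filter.1 (hS1 (e i).2)).2
  refine ge_of_crit ⟨fun _ => hemp, fun hle => ?_⟩
  -- equality
  have hc2 := Pool.Agent.Y205.AV.two_sum w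
  have hcw : cond w = ∑ p, (w p + 1).choose 2 := rfl
  have h2 : 2 * (TF d).card = (d + 1) * (d + 2) := Pool.Agent.K7.H33.BP.two_card_TF d
  have h3 : (TF d).card ≤ cond w := by
    rw [card_TF]
    refine h.trans ?_
    rw [hcw, Finset.card_eq_sum_ones, Finset.sum_filter]
    refine Finset.sum_le_sum fun i _ => ?_
    split_ifs with h4
    · exact Nat.choose_pos (by omega)
    · exact Nat.zero_le _
  exact ⟨TF d, by rw [coe_TF], by omega, by rw [coe_TF]; exact hemp⟩

/-- The inequalities of the classes which remain. -/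
def Rem10 {n : ℕ} (d : ℕ) (w : Fin n → ℕ) : Prop :=
  (∀ μ : ℕ, (Finset.univ.filter fun i => μ < w i).card ≤ 9 →
    d < 10000000000000000000000000000000 * (μ + 1) ^ 14) ∧
  (Finset.univ.filter fun i => 0 < w i).card < (d + 2).choose 2

theorem std_or10 {n : ℕ} (hn : 4 ≤ n) (d : ℕ) (w : Fin n → ℕ) (hs : Standard d w) :
    GE d w ∨ Rem10 d w := by
  by_cases h : GE d w
  · exact Or.inl h
  right
  refine ⟨fun μ hμ => ?_, ?_⟩
  · by_contra hcon
    push Not at hcon
    refine h (ge_star (μ := μ) (I := Finset.univ.filter fun i => μ < w i) hn hs hμ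
      (fun i hi => ?_) hcon)
    rw [Finset.mem_filter, not_and] at hi
    have := hi (Finset.mem_univ i)
    omega
  · by_contra hcon
    push Not at hcon
    exact h (ge_many hcon)

theorem hZero_special {n : ℕ} (P : Fin n → Fin 2 → ℂ) (d : ℕ) (w : Fin n → ℕ) :
    Special P d w ↔ hZero P d w ≠ max 0 (chi d w) := by
  unfold Special dimL virtdim hZero Pool.Agent.Q310.FP.chi
  constructor
  · intro h1 h2
    apply h1
    omega
  · intro h1 h2
    apply h1
    omega

/-- The reduction, with classes which are not larger. -/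
theorem shgh_less {n : ℕ} (hn : 4 ≤ n) {R : ℕ → (Fin n → ℕ) → Prop}
    (hR : ∀ (d : ℕ) (w : Fin n → ℕ), Standard d w → GE d w ∨ R d w) (d : ℕ) (w : Fin n → ℕ) :
    ∃ F : MvPolynomial (Fin n × Fin 2) ℂ, F ≠ 0 ∧
      ∀ P : Fin n → Fin 2 → ℂ, eval (fun ij : Fin n × Fin 2 => P ij.1 ij.2) F ≠ 0 →
        hZero P d w = max 0 (chi d w) ∨
        (∃ (G : MvPolynomial (Fin 3) ℂ) (e : ℕ) (u : Fin n → ℕ), MinusOne P G e u ∧
          inter d w e u ≤ -2) ∨
        ∃ (d'' : ℕ) (w'' : Fin n → ℕ) (k : ℕ) (G : Fin k → MvPolynomial (Fin 3) ℂ)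
          (e : Fin k → ℕ) (u : Fin k → Fin n → ℕ) (d' : ℕ) (w' : Fin n → ℕ),
          Decomp P d w d'' w'' G e u (fun _ => 1) ∧
          Relation.ReflTransGen Quadratic (d'', w'') (d', w') ∧ Less d' w' d w ∧ Standard d' w' ∧
          hZero P d' w' = hZero P d w ∧ hZero P d' w' ≠ max 0 (chi d' w') ∧ R d' w' := by
  classical
  obtain ⟨r, rfl⟩ : ∃ r, n = r + 4 := ⟨n - 4, by omega⟩
  obtain ⟨F, hF, hF'⟩ := hh_less (Q := fun d' w' => ¬ R d' w')
    (fun hP d1 w1 hr hG => ((hR d1 w1 hr).resolve_right hG) _ _ hP) d w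
  refine ⟨F.map (algebraMap ℚ ℂ), SH.map_ne hF, fun P hP => ?_⟩
  by_cases hs : hZero P d w = max 0 (chi d w)
  · exact Or.inl hs
  right
  rw [SH.evP_eval] at hP
  have hsp := (SH.special_conv P d w).1 ((hZero_special P d w).2 hs)
  rcases hF' ℂ P hP hsp with h | ⟨d', w', k, C, e, u, N, d1, w1, h1, h2, hl, h3, h4, h5, h6⟩
  · left
    obtain ⟨G, e, u, c1, c2⟩ := SH.mspecial_curve ((SH.mspecial_conv P d w).2 h)
    exact ⟨G, e, u, c1, c2⟩
  · by_cases hN : ∃ a, 2 ≤ N a
    · left
      obtain ⟨a, ha⟩ := hN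
      refine ⟨C a, e a, u a, SH.minusOne_iff.2 (h1.exc a), ?_⟩
      rw [SH.inter_eq, h1.neg a]
      omega
    · right
      push Not at hN
      have hN1 : N = fun _ => 1 := by
        funext a
        have := h1.pos a
        have := hN a
        omega
      subst hN1
      refine ⟨d', w', k, C, e, u, d1, w1, SH.decomp_iff.2 h1, SH.chain_conv h2, hl, h3, ?_,
        (hZero_special P d1 w1).1 ((SH.special_conv P d1 w1).2 h4), not_not.1 h6⟩
      unfold hZero
      rw [SH.sys_eq, SH.sys_eq, h5]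

/-- finitely many multisets -/
theorem finite_ms (D N : ℕ) : {s : Multiset ℕ | Multiset.card s ≤ N ∧ ∀ x ∈ s, x ≤ D}.Finite := by
  refine ((Multiset.powerset (N • Multiset.range (D + 1))).toFinset.finite_toSet).subset ?_
  rintro s ⟨h1, h2⟩
  rw [Finset.mem_coe, Multiset.mem_toFinset, Multiset.mem_powerset, Multiset.le_iff_count]
  intro x
  rw [Multiset.count_nsmul]
  by_cases hx : x ∈ s
  · have h3 : Multiset.count x (Multiset.range (D + 1)) = 1 :=
      Multiset.count_eq_one_of_mem (Multiset.nodup_range _)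
        (Multiset.mem_range.2 (by have := h2 x hx; omega))
    rw [h3, mul_one]
    exact (Multiset.count_le_card x s).trans h1
  · rw [Multiset.count_eq_zero_of_notMem hx]
    exact Nat.zero_le _

/-- for every `μ` only finitely many classes remain -/
theorem finite_rem (μ : ℕ) : {p : ℕ × Multiset ℕ | ∃ (n : ℕ) (w : Fin n → ℕ), 4 ≤ n ∧
    p.2 = (Finset.univ.val.map w).filter (fun x => x ≠ 0) ∧ Standard p.1 w ∧
    (Finset.univ.filter fun i => μ < w i).card ≤ 9 ∧ ¬ GE p.1 w}.Finite := by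
  classical
  obtain ⟨D, hD⟩ : ∃ D, D = 10000000000000000000000000000000 * (μ + 1) ^ 14 := ⟨_, rfl⟩
  refine ((Set.finite_Iio D).prod (finite_ms D ((D + 2).choose 2))).subset ?_
  rintro ⟨d, s⟩ ⟨n, w, hn, hs, hst, h9, hGE⟩
  simp only at hs hst hGE
  obtain ⟨r1, r2⟩ := (std_or10 hn d w hst).resolve_left hGE
  have hd : d < D := by
    rw [hD]
    exact r1 μ h9
  refine ⟨hd, ?_, ?_⟩
  · show Multiset.card s ≤ _
    rw [hs, Multiset.filter_map, Multiset.card_map]
    have e : Multiset.card (Multiset.filter ((fun x => x ≠ 0) ∘ w) Finset.univ.val) =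
        (Finset.univ.filter fun i => 0 < w i).card := by
      rw [Finset.card_def, Finset.filter_val]
      congr 1
      refine Multiset.filter_congr fun i _ => ?_
      simp only [Function.comp_apply]
      omega
    rw [e]
    exact r2.le.trans (Nat.choose_le_choose 2 (by omega))
  · intro x hx
    show x ≤ D
    change x ∈ s at hx
    rw [hs, Multiset.mem_filter, Multiset.mem_map] at hx
    obtain ⟨⟨i, _, rfl⟩, _⟩ := hx
    -- `w i ≤ d`
    obtain ⟨j, k, hij, hik, hjk⟩ : ∃ j k : Fin n, i ≠ j ∧ i ≠ k ∧ j ≠ k := by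
      have h1 : 2 ≤ ((Finset.univ : Finset (Fin n)).erase i).card := by
        rw [Finset.card_erase_of_mem (Finset.mem_univ i), Finset.card_univ, Fintype.card_fin]
        omega
      obtain ⟨j, hj, k, hk, hjk⟩ := Finset.one_lt_card.1 (lt_of_lt_of_le (by norm_num) h1)
      exact ⟨j, k, (Finset.ne_of_mem_erase hj).symm, (Finset.ne_of_mem_erase hk).symm, hjk⟩
    have := hst i j k hij hik hjk
    omega

end Pool.Agent.H879.Star
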