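import Pool.Agent.H879.Room.Main
import Pool.Graph.R_pool_sql_team_seeded_35f281b4.K7.H33.BP.Big

/-! Crude emptiness near the anticanonical ray of nine points. -/

set_option autoImplicit false

namespace Pool.Agent.H879.Star

open Finset Pool.Agent.TH176.Nag Pool.Agent.TH603.Sur Pool.Agent.TH105.N13 Pool.Agent.H879.Nine
open Pool.Agent.TH2 Pool.Agent.TH2.NU Pool.Agent.Y205.MD Pool.Agent.Y205.FW Pool.Agent.Y205.AV
open Pool.Agent.K7.H33.BP Pool.Agent.H879.Room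
open Pool.Agent.TH387.SH (TF coe_TF card_TF)

/-- removing simple points -/
theorem crk_le_of_simple {ι : Type} {w : ι → ℕ} (k : ℕ) : ∀ {S : Finset (ℤ × ℤ)},
    Emp (Sum.elim w (fun _ : Fin k => 1)) (↑S : Set (ℤ × ℤ)) → crk S w ≤ k := by
  classical
  induction k with
  | zero =>
    intro S h
    rw [Emp_zero_iff] at h
    rw [crk_zero_of_Emp h]
  | succ k ih =>
    intro S h
    rcases S.eq_empty_or_nonempty with h0 | h0
    · subst h0
      have : crk (∅ : Finset (ℤ × ℤ)) w ≤ 0 :=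
        crk_le ⟨∅, empty_subset _, by simp, Emp_nil w⟩
      omega
    · obtain ⟨m, hm, h1⟩ := Emp_erase h0 h
      have h2 := ih h1
      obtain ⟨T, h3, h4, h5⟩ := crk_spec (S.erase m) w
      have h6 := card_erase_of_mem hm
      have h7 := card_pos.2 ⟨m, hm⟩
      have h8 : crk S w ≤ crk (S.erase m) w + 1 :=
        crk_le ⟨T, h3.trans (erase_subset _ _), by omega, h5⟩
      omega

/-- the parallelogram -/
def Pg (d : ℕ) (q t : ℤ) (δ H : ℕ) (p : ℤ × ℤ) : Prop :=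
  (0 ≤ p.2 ∧ p.2 < H) ∧ 0 ≤ vv d q t p + 3 * q * δ ∧ vv d q t p < 0

theorem Pg_poly {d : ℕ} {q t : ℤ} {δ H : ℕ} : IsPoly (Pg d q t δ H) := by
  have h1 : IsPoly fun p => (0 ≤ 0 * p.1 + 1 * p.2) ∧ (-(H : ℤ) + 1 ≤ 0 * p.1 + (-1) * p.2) :=
    (IsPoly.half 0 1 0).and (IsPoly.half 0 (-1) (-(H : ℤ) + 1))
  have h2 : IsPoly fun p => ((q * t - 1) * d - 3 * q * δ ≤ 3 * q * p.1 + (-3) * p.2) ∧
      (1 - (q * t - 1) * d ≤ (-(3 * q)) * p.1 + 3 * p.2) :=
    (IsPoly.half _ _ _).and (IsPoly.half _ _ _)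
  refine (h1.and h2).congr fun p => ?_
  unfold Pg vv
  constructor
  · rintro ⟨⟨g1, g2⟩, g3, g4⟩
    exact ⟨⟨by linarith, by linarith⟩, by linarith, by linarith⟩
  · rintro ⟨⟨g1, g2⟩, g3, g4⟩
    exact ⟨⟨by linarith, by linarith⟩, by linarith, by linarith⟩

/-- the points of the parallelogram -/
noncomputable def Pf (d : ℕ) (q t : ℤ) (δ H : ℕ) : Finset (ℤ × ℤ) :=
  (range H).biUnion fun y : ℕ =>
    (Finset.Ico (cy d q t y - δ) (cy d q t y)).image fun x => ((x, (y : ℤ)) : ℤ × ℤ)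

theorem mem_Pf {d : ℕ} {q t : ℤ} {δ H : ℕ} (hq : 0 < q) (p : ℤ × ℤ) :
    p ∈ Pf d q t δ H ↔ Pg d q t δ H p := by
  obtain ⟨x, y⟩ := p
  unfold Pf
  rw [mem_biUnion]
  have key : ∀ y : ℤ, (0 ≤ vv d q t (x, y) + 3 * q * δ ∧ vv d q t (x, y) < 0) ↔
      (cy d q t y - δ ≤ x ∧ x < cy d q t y) := by
    intro y
    have h1 := cy_le (d := d) (t := t) (y := y) (x := x + δ) hq
    have h2 := cy_le (d := d) (t := t) (y := y) (x := x) hq
    unfold vv
    simp only
    constructor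
    · rintro ⟨h3, h4⟩
      constructor
      · have := h1.2 (by linarith)
        linarith
      · by_contra hc
        push Not at hc
        have := h2.1 hc
        linarith
    · rintro ⟨h3, h4⟩
      constructor
      · have := h1.1 (by linarith)
        linarith
      · by_contra hc
        push Not at hc
        have := h2.2 (by linarith)
        linarith
  constructor
  · rintro ⟨n, hn, h⟩
    rw [mem_range] at hn
    rw [mem_image] at h
    obtain ⟨x', hx', he⟩ := h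
    rw [Prod.mk.injEq] at he
    obtain ⟨rfl, rfl⟩ := he
    rw [Finset.mem_Ico] at hx'
    exact ⟨⟨Int.natCast_nonneg n, Int.ofNat_lt.2 hn⟩, (key n).2 hx'⟩
  · rintro ⟨⟨h0, h1⟩, h2⟩
    simp only at h0 h1
    obtain ⟨n, rfl⟩ := Int.eq_ofNat_of_zero_le h0
    refine ⟨n, ?_, ?_⟩
    · rw [mem_range]
      exact_mod_cast h1
    · rw [mem_image]
      refine ⟨x, ?_, rfl⟩
      rw [Finset.mem_Ico]
      exact (key n).1 h2

theorem card_Pf (d : ℕ) (q t : ℤ) (δ H : ℕ) : (Pf d q t δ H).card = δ * H := by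
  unfold Pf
  rw [card_biUnion]
  · rw [sum_congr rfl fun y _ => ?_, sum_const, card_range, smul_eq_mul, mul_comm]
    rw [card_image_of_injective _ (fun a b h => (Prod.mk.inj h).1), Int.card_Ico]
    have : cy d q t y - (cy d q t y - (δ : ℤ)) = δ := by ring
    rw [this, Int.toNat_natCast]
  · intro a _ b _ hne
    rw [Function.onFun, disjoint_left]
    intro p hp hp'
    rw [mem_image] at hp hp'
    obtain ⟨x, _, rfl⟩ := hp
    obtain ⟨x', _, h⟩ := hp'
    have := (Prod.mk.inj h).2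
    exact hne (by exact_mod_cast this.symm)

/-- the box -/
theorem box_P {d q : ℕ} {t : ℤ} (hq : 0 < q) {δ H : ℕ} (hh : H ≤ q ^ 2 * δ) :
    ∃ a b : ℤ, ∀ p : ℤ × ℤ, Pg d q t δ H p →
      (a ≤ p.1 ∧ p.1 < a + (2 * (q * δ) + 1 : ℕ)) ∧
        (b ≤ p.2 - q * p.1 ∧ p.2 - q * p.1 < b + (2 * (q * δ) + 1 : ℕ)) := by
  have hqZ : (0 : ℤ) < q := by exact_mod_cast hq
  obtain ⟨C, hC⟩ : ∃ C : ℤ, C = (q * t - 1) * d := ⟨_, rfl⟩
  refine ⟨-((-C) / (3 * q)) - δ, -(C / 3), ?_⟩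
  rintro ⟨x, y⟩ ⟨⟨h1, h2⟩, h3, hv⟩
  simp only at h1 h2 h3 hv ⊢
  obtain ⟨n, rfl⟩ := Int.eq_ofNat_of_zero_le h1
  have hv2 : -(3 * (q : ℤ) * δ) ≤ vv d q t (x, (n : ℤ)) := by linarith
  unfold vv at hv hv2
  simp only at hv hv2
  rw [← hC] at hv hv2
  have h7 : (H : ℤ) ≤ (q : ℤ) ^ 2 * δ := by exact_mod_cast hh
  have hqω : (δ : ℤ) ≤ q * δ := by
    have : (1 : ℤ) * δ ≤ q * δ := mul_le_mul_of_nonneg_right (by omega) (by positivity)
    linarith
  have k1 : (-C) / (3 * q) * (3 * q) ≤ -C := Int.ediv_mul_le _ (by positivity)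
  have k2 : -C < ((-C) / (3 * q) + 1) * (3 * q) := Int.lt_ediv_add_one_mul_self _ (by positivity)
  obtain ⟨e, he⟩ : ∃ e, e = (-C) / (3 * (q : ℤ)) := ⟨_, rfl⟩
  rw [← he] at k1 k2 ⊢
  have k3 : C / 3 * 3 ≤ C := Int.ediv_mul_le _ (by norm_num)
  have k4 : C < (C / 3 + 1) * 3 := Int.lt_ediv_add_one_mul_self _ (by norm_num)
  obtain ⟨g, hg⟩ : ∃ g, g = C / 3 := ⟨_, rfl⟩
  rw [← hg] at k3 k4 ⊢
  push_cast
  refine ⟨⟨?_, ?_⟩, ?_, ?_⟩
  · have : 0 < 3 * (q : ℤ) * (x + e + δ + 1) := by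
      have : 3 * (q : ℤ) * (x + e + δ + 1) = (3 * q * x - C - 3 * n + 3 * q * δ) + 3 * n +
        (C + (e + 1) * (3 * q)) := by ring
      rw [this]
      linarith
    have := pos_of_mul_pos_right this (by positivity)
    omega
  · have h9 : 3 * (q : ℤ) * (x + e) ≤ 3 * q * (q * δ) := by
      have : 3 * (q : ℤ) * (x + e) = (3 * q * x - C - 3 * n) + 3 * n + (C + e * (3 * q)) := by ring
      rw [this]
      have : 3 * (q : ℤ) * (q * δ) = 3 * (q ^ 2 * δ) := by ring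
      linarith
    have := le_of_mul_le_mul_left h9 (by positivity)
    linarith
  · have : 3 * ((n : ℤ) - q * x) ≥ -C := by linarith
    omega
  · have h10 : 3 * ((n : ℤ) - q * x) ≤ -C + 3 * (q * δ) := by linarith
    omega

/-- **the reduction to a strip**, when one multiplicity is larger than `d / 3` -/
theorem exists_tube (d q : ℕ) (hq : 0 < q) : ∃ t : ℤ,
    ∀ (ι : Type) (_ : DecidableEq ι) (m : ι → ℕ) (A : Finset ι), (∃ i ∈ A, d < 3 * m i) →
      Emp (fun i => if i ∈ A then 0 else m i)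
        {p | (0 ≤ p.2 ∧ 3 * p.2 < d) ∧ 0 ≤ vv d q t p + 3 * q * Wz d m A p.2 ∧ vv d q t p < 0} →
      Emp m (TZ d) := by
  have hqR : (0 : ℝ) < q := by exact_mod_cast hq
  obtain ⟨t, τ, h0, h1, hirr, hfl⟩ := exists_pert d ((1 : ℝ) / q)
  have hz : ∀ y : ℤ, ∀ x : ℝ, 3 * q * (x - ((t - (1 : ℝ) / q) * (d / 3) + 1 / q * y)) =
      3 * q * x - (q * t - 1) * d - 3 * y := by
    intro y x
    field_simp
    ring
  refine ⟨t, fun ι _ m A hbig h => ?_⟩
  refine Emp_plane (t := t) h0 h1 hirr (Emp_absorb_all m A _ (h.mono ?_))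
  rintro ⟨x, y⟩ ⟨g1, g2, g3, g4⟩
  simp only at g1 g2 g3 g4
  have hy3 : 3 * y ≤ d := by omega
  rcases hy3.lt_or_eq with h3 | h3
  · have e := hfl y g1 h3
    have e4 : L1a d 0 y - ∑ i ∈ A, max ((m i : ℤ) - y) 0 = Wz d m A y := by
      unfold L1a Wz L1
      rw [max_eq_right (show ((0 : ℕ) : ℤ) - y ≤ 0 by push_cast; omega), if_neg (by omega)]
      ring
    rw [e, e4] at g3
    rw [e] at g4
    refine ⟨⟨g1, h3⟩, ?_, ?_⟩
    · have h5 : ⌈(t - (1 : ℝ) / q) * (d / 3) + 1 / q * y⌉ ≤ x + Wz d m A y := by omega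
      rw [Int.ceil_le] at h5
      have h6 : 0 ≤ 3 * q * (((x + Wz d m A y : ℤ) : ℝ) -
          ((t - (1 : ℝ) / q) * (d / 3) + 1 / q * y)) :=
        mul_nonneg (by positivity) (by linarith)
      rw [hz] at h6
      have h7 : (0 : ℤ) ≤ 3 * q * (x + Wz d m A y) - (q * t - 1) * d - 3 * y := by
        exact_mod_cast h6
      unfold vv
      simp only
      linarith
    · have h5 : x < ⌈(t - (1 : ℝ) / q) * (d / 3) + 1 / q * y⌉ := by omega
      rw [Int.lt_ceil] at h5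
      have h6 : 3 * q * ((x : ℝ) - ((t - (1 : ℝ) / q) * (d / 3) + 1 / q * y)) < 0 :=
        mul_neg_of_pos_of_neg (by positivity) (by linarith)
      rw [hz] at h6
      have h7 : 3 * q * x - (q * t - 1) * d - 3 * y < (0 : ℤ) := by
        exact_mod_cast h6
      unfold vv
      simp only
      linarith
  · exfalso
    obtain ⟨i, hi, hi3⟩ := hbig
    have e4 : L1a d 0 y = 1 := by
      unfold L1a L1
      rw [max_eq_right (show ((0 : ℕ) : ℤ) - y ≤ 0 by push_cast; omega), if_pos h3]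
      linarith
    have e5 : 1 ≤ ∑ i ∈ A, max ((m i : ℤ) - y) 0 := by
      have h6 : max ((m i : ℤ) - y) 0 ≤ ∑ i ∈ A, max ((m i : ℤ) - y) 0 :=
        single_le_sum (f := fun i => max ((m i : ℤ) - y) 0) (fun i _ => le_max_right _ _) hi
      have h7 : 1 ≤ max ((m i : ℤ) - y) 0 := le_max_of_le_left (by omega)
      linarith
    rw [e4] at g3
    omega

/-- the rows of nine points are at most `δ`, and empty from `a + δ` on -/
theorem Wz_nine {ι : Type} {d : ℕ} {m : ι → ℕ} {A : Finset ι} {a δ : ℕ} (hA : A.card = 9)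
    (ha' : ∃ i ∈ A, m i = a) (hδ : ∑ i ∈ A, m i + δ = 3 * d) {y : ℤ} :
    Wz d m A y ≤ δ ∧ (((a + δ : ℕ) : ℤ) ≤ y → Wz d m A y ≤ 0) := by
  classical
  unfold Wz
  have hsum : ∑ i ∈ A, ((m i : ℤ) - y) = 3 * d - δ - 9 * y := by
    rw [sum_sub_distrib, sum_const, hA, nsmul_eq_mul]
    have h1 : ∑ i ∈ A, (m i : ℤ) = ((∑ i ∈ A, m i : ℕ) : ℤ) := by push_cast; rfl
    rw [h1]
    have h2 : ((∑ i ∈ A, m i : ℕ) : ℤ) + δ = 3 * d := by exact_mod_cast hδ
    push_cast at h2 ⊢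
    linarith
  constructor
  · have h1 : ∑ i ∈ A, ((m i : ℤ) - y) ≤ ∑ i ∈ A, max ((m i : ℤ) - y) 0 :=
      sum_le_sum fun i _ => le_max_left _ _
    linarith
  · intro hy2
    push_cast at hy2
    obtain ⟨j, hj, hja⟩ := ha'
    have h1 : ∑ i ∈ A.erase j, ((m i : ℤ) - y) ≤ ∑ i ∈ A, max ((m i : ℤ) - y) 0 := by
      refine le_trans (sum_le_sum fun i _ => le_max_left ((m i : ℤ) - y) 0) ?_
      exact sum_le_sum_of_subset_of_nonneg (erase_subset _ _) fun i _ _ => le_max_right _ _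
    have h2 := add_sum_erase A (fun i => (m i : ℤ) - y) hj
    rw [hja, hsum] at h2
    linarith

/-- **Crude emptiness.** -/
theorem tube_crude {d a δ B : ℕ} {m : Fin 9 → ℕ} {M : Multiset ℕ}
    (hM : ∀ t : ℕ → ℕ, ∑ i, t (m i) = (M.map t).sum) (ha' : ∃ i, m i = a)
    (hδ : ∑ i, m i + δ = 3 * d) (hδ1 : 1 ≤ δ) (hbig : ∃ i, d < 3 * m i) (hB : 2 ≤ B) :
    ∃ N : ℕ, N ^ 2 ≤ 36 * (δ * (a + δ)) ∧ ∀ W : Multiset ℕ, (∀ v ∈ W, 1 ≤ v ∧ v ≤ B) →
      crkM (TF d) (M + W) = 0 ∨ 2 * crkM (TF d) (M + W) + sqs W ≤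
        2 * (δ * (a + δ)) + (14080 * (B * (N + 1)) + 7150 * B ^ 2) := by
  classical
  obtain ⟨H, hH⟩ : ∃ H, H = a + δ := ⟨_, rfl⟩
  obtain ⟨q, hq, hq1, hq2⟩ := exists_q (h := H) (ω := δ) hδ1 (by omega) (by omega)
  have hqZ : (0 : ℤ) < q := by exact_mod_cast hq
  refine ⟨2 * (q * δ), by rw [← hH]; exact hq2, fun W hW => ?_⟩
  rw [← hH]
  obtain ⟨t, ht⟩ := exists_tube d q hq
  obtain ⟨a0, b0, hbox0⟩ := box_P (d := d) (t := t) (δ := δ) (H := H) hq hq1
  obtain ⟨S, hS⟩ : ∃ S, S = Pf d q t δ H := ⟨_, rfl⟩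
  have hcardS : S.card = δ * H := by rw [hS, card_Pf]
  -- the shear
  obtain ⟨φ, hφ⟩ : ∃ φ : ℤ × ℤ → ℤ × ℤ, ∀ m, φ m = (m.1 - a0, m.2 - q * m.1 - b0) :=
    ⟨_, fun _ => rfl⟩
  have hinj : Function.Injective φ := by
    rintro ⟨x, y⟩ ⟨x', y'⟩ h
    rw [hφ, hφ] at h
    simp only [Prod.mk.injEq] at h
    obtain ⟨h1, h2⟩ := h
    have h3 : x = x' := by linarith
    subst h3
    ext
    · rfl
    · simp only; linarith
  obtain ⟨S', hS'⟩ : ∃ S', S' = S.image φ := ⟨_, rfl⟩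
  have hcard : S'.card = δ * H := by rw [hS', card_image_of_injective _ hinj, hcardS]
  have hP' := (Pg_poly (d := d) (q := q) (t := t) (δ := δ) (H := H)).subst 1 0 q 1 a0 (b0 + q * a0)
  have hmem : ∀ m, m ∈ S' ↔
      Pg d q t δ H (1 * m.1 + 0 * m.2 + a0, q * m.1 + 1 * m.2 + (b0 + q * a0)) := by
    intro m
    rw [hS', mem_image]
    constructor
    · rintro ⟨p, hp, rfl⟩
      rw [hS] at hp
      have h1 := (mem_Pf hqZ p).1 hp
      rw [hφ]
      have e : ((1 * (p.1 - a0) + 0 * (p.2 - q * p.1 - b0) + a0,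
        q * (p.1 - a0) + 1 * (p.2 - q * p.1 - b0) + (b0 + q * a0)) : ℤ × ℤ) = p := by
        ext
        · simp only; ring
        · simp only; ring
      simp only [e]
      exact h1
    · intro h1
      refine ⟨_, by rw [hS]; exact (mem_Pf hqZ _).2 h1, ?_⟩
      rw [hφ]
      ext
      · simp only; ring
      · simp only; ring
  have hbox : ∀ m ∈ S', (0 ≤ m.1 ∧ m.1 < (2 * (q * δ) + 1 : ℕ)) ∧
      (0 ≤ m.2 ∧ m.2 < (2 * (q * δ) + 1 : ℕ)) := by
    intro m hm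
    rw [hS', mem_image] at hm
    obtain ⟨p, hp, rfl⟩ := hm
    rw [hS] at hp
    have h1 := hbox0 p ((mem_Pf hqZ p).1 hp)
    rw [hφ]
    simp only
    omega
  have hAp := (Ap_poly (B := B) hB hP' hmem hbox).ce W hW
  rw [hcard] at hAp
  -- the map
  have hmap : crk S (vec W) ≤ crk S' (vec W) := by
    refine crk_map 1 0 (-q) 1 (-a0) (-b0) (by norm_num) fun m hm => ?_
    have e : ((1 * m.1 + 0 * m.2 + -a0, -q * m.1 + 1 * m.2 + -b0) : ℤ × ℤ) = φ m := by
      rw [hφ]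
      ext
      · simp only; ring
      · simp only; ring
    rw [e, hS']
    exact mem_image_of_mem φ hm
  -- the degeneration
  have hdeg : crkM (TF d) (M + W) ≤ crk S (vec W) := by
    have e1 : crkM (TF d) (M + W) = crk (TF d) (Sum.elim m (vec W)) := by
      refine crkM_eq fun f => ?_
      rw [Fintype.sum_sum_type, Multiset.map_add, Multiset.sum_add, ← hM, ← sum_vec]
      simp
    rw [e1]
    obtain ⟨T, hT1, hT2, hT3⟩ := crk_spec S (vec W)
    have h4 := Emp_union hT3 (S \ T)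
    rw [union_sdiff_of_subset hT1] at h4
    have h5 : (S \ T).card = crk S (vec W) := by
      rw [card_sdiff_of_subset hT1]
      have := card_le_card hT1
      omega
    rw [h5] at h4
    obtain ⟨k, hk⟩ : ∃ k, k = crk S (vec W) := ⟨_, rfl⟩
    rw [← hk] at h4 ⊢
    refine crk_le_of_simple k ?_
    rw [coe_TF]
    obtain ⟨A, hA⟩ : ∃ A : Finset ((Fin 9 ⊕ Fin W.toList.length) ⊕ Fin k),
      A = (univ : Finset (Fin 9)).image fun i => Sum.inl (Sum.inl i) := ⟨_, rfl⟩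
    have hinjA : Function.Injective fun i : Fin 9 =>
        (Sum.inl (Sum.inl i) : (Fin 9 ⊕ Fin W.toList.length) ⊕ Fin k) := by
      intro i j h
      simpa using h
    have hAsum : ∀ f : ((Fin 9 ⊕ Fin W.toList.length) ⊕ Fin k) → ℕ,
        ∑ i ∈ A, f i = ∑ i, f (Sum.inl (Sum.inl i)) := by
      intro f
      rw [hA, sum_image (fun x _ y _ h => hinjA h)]
    have hAc : A.card = 9 := by
      rw [hA, card_image_of_injective _ hinjA]
      simp
    have hAall : ∀ P : ((Fin 9 ⊕ Fin W.toList.length) ⊕ Fin k) → Prop,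
        (∃ i, P (Sum.inl (Sum.inl i))) → ∃ i ∈ A, P i := by
      rintro P ⟨i, hi⟩
      refine ⟨_, ?_, hi⟩
      rw [hA]
      exact mem_image_of_mem _ (mem_univ i)
    have hz : (fun i => if i ∈ A then 0 else
        (Sum.elim (Sum.elim m (vec W)) (fun _ : Fin k => 1) : _ → ℕ) i) =
        Sum.elim (Sum.elim (fun _ => 0) (vec W)) (fun _ : Fin k => 1) := by
      funext i
      rw [hA]
      rcases i with (i | i) | i <;> simp
    refine ht _ inferInstance _ A ?_ ?_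
    · exact hAall _ hbig
    · rw [hz]
      have h6 : Emp (Sum.elim (Sum.elim (fun _ : Fin 9 => 0) (vec W)) (fun _ : Fin k => 1))
          (↑S : Set (ℤ × ℤ)) := by
        refine Emp_emb (fun s : Fin W.toList.length ⊕ Fin k =>
          Sum.elim (fun i => Sum.inl (Sum.inr i)) (fun i => Sum.inr i) s) ?_ ?_ h4
        · rintro (i | i) (j | j) h
          · simpa using h
          · simp at h
          · simp at h
          · simpa using h
        · rintro (i | i) <;> simp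
      refine h6.mono ?_
      rintro ⟨x, y⟩ ⟨⟨g1, g2⟩, g3, g4⟩
      rw [mem_coe, hS, mem_Pf hqZ]
      simp only at g1 g2 g3 g4
      obtain ⟨w1, w2⟩ := Wz_nine (d := d) (a := a) (δ := δ) (y := y)
        (m := (Sum.elim (Sum.elim m (vec W)) (fun _ : Fin k => 1) : _ → ℕ)) hAc
        (hAall _ ha') (by rw [hAsum]; exact hδ)
      have h3q : (0 : ℤ) < 3 * q := by positivity
      refine ⟨⟨g1, ?_⟩, ?_, g4⟩
      · by_contra hc
        push Not at hc
        simp only at hc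
        have h7 := w2 (by rw [← hH]; exact hc)
        have h8 : 3 * (q : ℤ) * Wz d (Sum.elim (Sum.elim m (vec W)) (fun _ : Fin k => 1)) A y ≤ 0 :=
          mul_nonpos_of_nonneg_of_nonpos h3q.le h7
        linarith
      · have h8 : 3 * (q : ℤ) * Wz d (Sum.elim (Sum.elim m (vec W)) (fun _ : Fin k => 1)) A y ≤
            3 * q * δ := mul_le_mul_of_nonneg_left w1 h3q.le
        linarith
  have hfin : crkM (TF d) (M + W) ≤ crkM S' W := hdeg.trans hmap
  rcases hAp with h0 | h0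
  · left
    omega
  · right
    omega

end Pool.Agent.H879.Star
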