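import Pool.Agent.H879.Star.Apx
import Pool.Agent.H879.Star.Tube

/-! Exactness near the anticanonical ray. -/

set_option autoImplicit false

namespace Pool.Agent.H879.Star

open Finset Pool.Agent.TH176.Nag Pool.Agent.TH603.Sur
open Pool.Agent.TH2 Pool.Agent.TH2.NU Pool.Agent.Y205.MD Pool.Agent.Y205.FW Pool.Agent.Y205.AV
open Pool.Agent.K7.H33.BP
open Pool.Agent.TH387.SH (TF coe_TF card_TF)

theorem two_pow_between {n : ℕ} (h : 1 < n) : ∃ k, n ≤ 2 ^ k ∧ 2 ^ k ≤ 2 * n := by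
  refine ⟨Nat.clog 2 n, Nat.le_pow_clog (by norm_num) n, ?_⟩
  have h1 := Nat.pow_pred_clog_lt_self (b := 2) (by norm_num) h
  have h2 : 0 < Nat.clog 2 n := Nat.clog_pos (by norm_num) h
  obtain ⟨j, hj⟩ : ∃ j, Nat.clog 2 n = j + 1 := ⟨Nat.clog 2 n - 1, by omega⟩
  rw [hj] at h1 ⊢
  rw [Nat.pred_succ] at h1
  rw [pow_succ]
  omega

theorem numA {y z N ρ δ P s : ℕ} (hy : 1 ≤ y) (hz1 : 512 * y ^ 3 ≤ z) (hz2 : z ≤ 1024 * y ^ 3)
    (hN : N ^ 2 ≤ 36 * (ρ + δ ^ 2)) (H1 : 16384 * y ^ 3 * δ ^ 2 ≤ ρ)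
    (H2 : 200000000000000000000000 * y ^ 14 ≤ ρ) (hP : P = ρ / z + 1) (hs : 2 * ρ ≤ y * s) :
    8 * (64 * y ^ 2 * ((2 * δ ^ 2 + (14080 * ((z * (8 * y)) * (N + 1)) +
      7150 * (z * (8 * y)) ^ 2)) + P + z ^ 2 * (64 * y ^ 2) + 3)) + 320 * y ^ 2 ≤ s := by
  have hpos : 0 < y := hy
  refine Nat.le_of_mul_le_mul_left (le_trans ?_ hs) hpos
  -- the powers of y
  have y3 : y ^ 3 ≤ y ^ 14 := Nat.pow_le_pow_right hpos (by norm_num)
  have y7 : y ^ 7 ≤ y ^ 14 := Nat.pow_le_pow_right hpos (by norm_num)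
  have y11 : y ^ 11 ≤ y ^ 14 := Nat.pow_le_pow_right hpos (by norm_num)
  have y3' : 1 ≤ y ^ 3 := Nat.one_le_pow _ _ hpos
  -- the entries
  have hA : z * (8 * y) ≤ 8192 * y ^ 4 := by
    calc z * (8 * y) ≤ 1024 * y ^ 3 * (8 * y) := Nat.mul_le_mul_right _ hz2
      _ = 8192 * y ^ 4 := by ring
  have hA2 : (z * (8 * y)) ^ 2 ≤ 67108864 * y ^ 8 := by
    calc (z * (8 * y)) ^ 2 ≤ (8192 * y ^ 4) ^ 2 := Nat.pow_le_pow_left hA 2
      _ = 67108864 * y ^ 8 := by ring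
  have hz3 : z ^ 2 * (64 * y ^ 2) ≤ 67108864 * y ^ 8 := by
    calc z ^ 2 * (64 * y ^ 2) ≤ (1024 * y ^ 3) ^ 2 * (64 * y ^ 2) :=
          Nat.mul_le_mul_right _ (Nat.pow_le_pow_left hz2 2)
      _ = 67108864 * y ^ 8 := by ring
  -- P
  have hPz : 512 * y ^ 3 * P ≤ ρ + 512 * y ^ 3 := by
    rw [hP, mul_add, mul_one]
    have h1 : 512 * y ^ 3 * (ρ / z) ≤ z * (ρ / z) := Nat.mul_le_mul_right _ hz1
    have h2 := Nat.mul_div_le ρ z
    omega
  -- N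
  obtain ⟨c, hc⟩ : ∃ c, c = 59055800320 * y ^ 7 := ⟨_, rfl⟩
  have hc2 : 57 * c ^ 2 ≤ ρ := by
    have e : 57 * c ^ 2 = 57 * 3487587551435712102400 * y ^ 14 := by
      rw [hc]
      ring
    rw [e]
    refine le_trans (Nat.mul_le_mul_right _ ?_) H2
    norm_num
  have hδρ : 16384 * δ ^ 2 ≤ ρ := by
    refine le_trans ?_ H1
    have := Nat.mul_le_mul_right (δ ^ 2) (Nat.mul_le_mul_left 16384 y3')
    rwa [mul_one] at this
  have hcN : 16 * (c * N) ≤ 13 * ρ := by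
    have h1 : (16 * (c * N)) ^ 2 ≤ (13 * ρ) ^ 2 := by
      have h2 : 16384 * N ^ 2 ≤ 36 * 16385 * ρ := by omega
      have h3 : 57 * 16384 * (c * N) ^ 2 ≤ 36 * 16385 * ρ ^ 2 := by
        calc 57 * 16384 * (c * N) ^ 2 = (57 * c ^ 2) * (16384 * N ^ 2) := by ring
          _ ≤ ρ * (36 * 16385 * ρ) := Nat.mul_le_mul hc2 h2
          _ = 36 * 16385 * ρ ^ 2 := by ring
      have e1 : (16 * (c * N)) ^ 2 = 256 * (c * N) ^ 2 := by ring
      have e2 : (13 * ρ) ^ 2 = 169 * ρ ^ 2 := by ring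
      rw [e1, e2]
      omega
    exact (Nat.pow_le_pow_iff_left (by norm_num)).1 h1
  have hcs : 1000 * c ≤ ρ := by
    rw [hc]
    refine le_trans ?_ H2
    calc 1000 * (59055800320 * y ^ 7) = 59055800320000 * y ^ 7 := by ring
      _ ≤ 59055800320000 * y ^ 14 := Nat.mul_le_mul_left _ y7
      _ ≤ _ := Nat.mul_le_mul_right _ (by norm_num)
  -- the parts
  have p1 : 16 * (512 * y ^ 3 * (2 * δ ^ 2)) ≤ ρ := by
    refine le_trans (le_of_eq ?_) H1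
    ring
  have p2 : 512 * y ^ 3 * (14080 * ((z * (8 * y)) * (N + 1))) ≤ c * N + c := by
    calc 512 * y ^ 3 * (14080 * ((z * (8 * y)) * (N + 1)))
        ≤ 512 * y ^ 3 * (14080 * ((8192 * y ^ 4) * (N + 1))) := by
          refine Nat.mul_le_mul_left _ (Nat.mul_le_mul_left _ (Nat.mul_le_mul_right _ hA))
      _ = c * N + c := by rw [hc]; ring
  have p3 : 512 * y ^ 3 * (7150 * (z * (8 * y)) ^ 2 + z ^ 2 * (64 * y ^ 2) + 5) ≤
      245706489100000 * y ^ 11 := by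
    have h1 : 7150 * (z * (8 * y)) ^ 2 + z ^ 2 * (64 * y ^ 2) + 5 ≤
        479895486469 * y ^ 8 := by
      have y8 : 1 ≤ y ^ 8 := Nat.one_le_pow _ _ hpos
      omega
    calc 512 * y ^ 3 * (7150 * (z * (8 * y)) ^ 2 + z ^ 2 * (64 * y ^ 2) + 5) ≤
        512 * y ^ 3 * (479895486469 * y ^ 8) := Nat.mul_le_mul_left _ h1
      _ = 245706489072128 * y ^ 11 := by ring
      _ ≤ _ := Nat.mul_le_mul_right _ (by norm_num)
  have p3' : 1000 * (245706489100000 * y ^ 11) ≤ ρ := by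
    refine le_trans ?_ H2
    calc 1000 * (245706489100000 * y ^ 11) = 245706489100000000 * y ^ 11 := by ring
      _ ≤ 245706489100000000 * y ^ 14 := Nat.mul_le_mul_left _ y11
      _ ≤ _ := Nat.mul_le_mul_right _ (by norm_num)
  have e : y * (8 * (64 * y ^ 2 * ((2 * δ ^ 2 + (14080 * ((z * (8 * y)) * (N + 1)) +
      7150 * (z * (8 * y)) ^ 2)) + P + z ^ 2 * (64 * y ^ 2) + 3)) + 320 * y ^ 2) =
      512 * y ^ 3 * (2 * δ ^ 2) + 512 * y ^ 3 * (14080 * ((z * (8 * y)) * (N + 1))) +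
      512 * y ^ 3 * P + 512 * y ^ 3 * (7150 * (z * (8 * y)) ^ 2 + z ^ 2 * (64 * y ^ 2) + 3) +
      320 * y ^ 3 := by ring
  have e2 : 512 * y ^ 3 * (7150 * (z * (8 * y)) ^ 2 + z ^ 2 * (64 * y ^ 2) + 5) =
      512 * y ^ 3 * (7150 * (z * (8 * y)) ^ 2 + z ^ 2 * (64 * y ^ 2) + 3) + 1024 * y ^ 3 := by ring
  rw [e]
  omega

/-- **Exactness near the anticanonical ray.** -/
theorem star_big {d μ δ g a ρ : ℕ} {m : Fin 9 → ℕ} {M W : Multiset ℕ}
    (hM : ∀ t : ℕ → ℕ, ∑ i, t (m i) = (M.map t).sum) (ha' : ∃ i, m i = a)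
    (hδ : ∑ i, m i + δ = 3 * d) (hδ1 : 1 ≤ δ) (hbig : ∃ i, d < 3 * m i)
    (hind : crkM (TF d) M + NU.condM M ≤ (TF d).card) (hρ : (TF d).card = NU.condM M + ρ)
    (haδ : a * δ ≤ ρ) (H1 : 16384 * (μ + 1) ^ 3 * δ ^ 2 ≤ ρ)
    (H2 : 200000000000000000000000 * (μ + 1) ^ 14 ≤ ρ) (hW : ∀ v ∈ W, 1 ≤ v ∧ v ≤ μ)
    (hg : 2 * (TF d).card = 2 * NU.condM M + 2 * NU.condM W + g ∨
      2 * (TF d).card + g = 2 * NU.condM M + 2 * NU.condM W) :
    crkM (TF d) (M + W) ≤ (TF d).card - (NU.condM M + NU.condM W) := by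
  obtain ⟨y, hy⟩ : ∃ y, y = μ + 1 := ⟨_, rfl⟩
  have hy1 : 1 ≤ y := by omega
  rw [← hy] at H1 H2
  obtain ⟨k, hk1, hk2⟩ := two_pow_between (n := 512 * y ^ 3) (by
    have : 1 ≤ y ^ 3 := Nat.one_le_pow _ _ hy1
    omega)
  have hB : 2 ≤ 2 ^ k * (8 * (μ + 1)) := by
    have : 1 ≤ 2 ^ k := Nat.one_le_two_pow
    have h2 : 1 * (8 * (μ + 1)) ≤ 2 ^ k * (8 * (μ + 1)) := Nat.mul_le_mul_right _ this
    omega
  obtain ⟨N, hN, hcr⟩ := tube_crude (B := 2 ^ k * (8 * (μ + 1))) hM ha' hδ hδ1 hbig hB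
  have hT0 : ∀ m ∈ TF d, 0 ≤ m.1 ∧ 0 ≤ m.2 := fun m hm => by
    rw [mem_TF] at hm
    exact ⟨hm.1, hm.2.1⟩
  have haδ2 : δ * (a + δ) ≤ ρ + δ ^ 2 := by
    have : δ * (a + δ) = a * δ + δ ^ 2 := by ring
    omega
  refine ex_of_crude (k := k) (P := ρ / 2 ^ k + 1)
    (E' := 2 * δ ^ 2 + (14080 * ((2 ^ k * (8 * (μ + 1))) * (N + 1)) +
      7150 * (2 ^ k * (8 * (μ + 1))) ^ 2)) hT0 hind ?_ ?_ hW hg ?_
  · intro W' hW'
    rcases hcr W' hW' with h0 | h0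
    · exact Or.inl h0
    · right
      omega
  · rw [hρ]
    have h1 := Nat.div_add_mod ρ (2 ^ k)
    have h2 := Nat.mod_lt ρ (show 0 < 2 ^ k by positivity)
    have h3 : 2 ^ k * (ρ / 2 ^ k + 1) = 2 ^ k * (ρ / 2 ^ k) + 2 ^ k := by ring
    omega
  · have hs : 2 * ρ ≤ y * (W.sum + 2 * g) := by
      have h1 : 2 * NU.condM W ≤ y * W.sum := by
        have h2 := two_condM W
        have h3 : sqs W ≤ μ * W.sum := by
          clear hg h2
          induction W using Multiset.induction_on with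
          | empty => simp [sqs]
          | cons b W ih =>
            rw [sqs_cons, Multiset.sum_cons]
            have h4 := ih fun v hv => hW v (Multiset.mem_cons_of_mem hv)
            have h5 := (hW b (Multiset.mem_cons_self b W)).2
            have h6 : b ^ 2 ≤ μ * b := by
              rw [sq]
              exact Nat.mul_le_mul_right _ h5
            rw [mul_add]
            omega
        have h4 : y * W.sum = μ * W.sum + W.sum := by
          rw [hy]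
          ring
        omega
      have h5 : y * (W.sum + 2 * g) = y * W.sum + 2 * (y * g) := by ring
      have h6 : 1 * g ≤ y * g := Nat.mul_le_mul_right _ hy1
      rcases hg with h | h <;> omega
    have key := numA (y := y) (z := 2 ^ k) (N := N) (ρ := ρ) (δ := δ) (P := ρ / 2 ^ k + 1)
      (s := W.sum + 2 * g) hy1 hk1 (by omega) (by omega) H1 H2 rfl hs
    have e4 : (2 ^ k) ^ 2 = 4 ^ k := by
      rw [← pow_mul, mul_comm, pow_mul]
      norm_num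
    unfold bigE
    rw [← hy]
    rw [e4] at key
    exact key

end Pool.Agent.H879.Star
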