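import Pool.Agent.H879.Star.Sup

/-! Approximate emptiness from crude emptiness by doublings of arbitrary depth. -/

set_option autoImplicit false

namespace Pool.Agent.H879.Star

open Finset Pool.Agent.TH176.Nag Pool.Agent.TH603.Sur Pool.Agent.TH2 Pool.Agent.TH2.NU
open Pool.Agent.Y205.MD Pool.Agent.Y205.FW Pool.Agent.Y205.AV Pool.Agent.K7.H33.BP

theorem leaf_lin' {k N v a g0 g1 : ℕ} (hv : 1 ≤ v) (hlo : 2 ^ k * v ≤ a)
    (hcd : N * (a + 1).choose 2 + g0 = 4 ^ k * N * (v + 1).choose 2 + g1)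
    (hg : N * v * 4 ^ k ≤ 2 * (g0 + g1) + N * v * 2 ^ k) :
    N * a ≤ 2 ^ k * (N * v) + 2 * g1 := by
  obtain ⟨x, rfl⟩ : ∃ x, a = 2 ^ k * v + x := ⟨a - 2 ^ k * v, by omega⟩
  have hc1 : 2 * (2 ^ k * v + x + 1).choose 2 = (2 ^ k * v + x) * (2 ^ k * v + x + 1) := by
    rw [Nat.choose_two_right, Nat.add_sub_cancel, Nat.mul_div_cancel', mul_comm]
    rw [mul_comm]
    exact (Nat.even_mul_succ_self _).two_dvd
  have hc2 : 2 * (v + 1).choose 2 = v * (v + 1) := by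
    rw [Nat.choose_two_right, Nat.add_sub_cancel, Nat.mul_div_cancel', mul_comm]
    rw [mul_comm]
    exact (Nat.even_mul_succ_self _).two_dvd
  obtain ⟨q, hq⟩ : ∃ q, q = 2 ^ k := ⟨_, rfl⟩
  have h4 : 4 ^ k = q * q := by
    rw [hq, ← Nat.mul_pow]
  have hq1 : 1 ≤ q := by
    rw [hq]
    exact Nat.one_le_two_pow
  rw [h4] at hcd hg
  rw [← hq] at hc1 hcd hg ⊢
  obtain ⟨C1, hC1⟩ : ∃ C1, C1 = (q * v + x + 1).choose 2 := ⟨_, rfl⟩
  obtain ⟨C2, hC2⟩ : ∃ C2, C2 = (v + 1).choose 2 := ⟨_, rfl⟩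
  rw [← hC1] at hc1 hcd
  rw [← hC2] at hc2 hcd
  clear hC1 hC2 hq h4 hlo
  zify at *
  -- 4 g1 ≥ N (2 q v x + x² + x)
  have e1 : 4 * (g1 : ℤ) ≥ N * (2 * q * v * x + x ^ 2 + x) := by
    have e2 : 2 * ((N : ℤ) * C1) = N * ((q * v + x) * (q * v + x + 1)) := by
      rw [← hc1]; ring
    have e3 : 2 * ((q : ℤ) * q * N * C2) = q * q * N * (v * (v + 1)) := by
      rw [← hc2]; ring
    nlinarith [hcd, hg, e2, e3]
  have e4 : (N : ℤ) * x * (2 * (q * v) + 1) ≥ N * x * 2 := by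
    have hqv : 1 ≤ (q : ℤ) * v := by nlinarith
    have hNx : 0 ≤ (N : ℤ) * x := by positivity
    nlinarith
  have e5 : 0 ≤ (N : ℤ) * x ^ 2 := by positivity
  nlinarith [e1, e4, e5]

/-- **Approximate emptiness from crude emptiness.** -/
theorem cex_of_crude {B k P E' : ℕ} {R : Finset (ℤ × ℤ)} {M : Multiset ℕ}
    (hpos : ∀ u ∈ R, 0 ≤ u.1 ∧ 0 ≤ u.2)
    (hcr : ∀ W : Multiset ℕ, (∀ v ∈ W, 1 ≤ v ∧ v ≤ 2 ^ k * (B + 1)) →
      crkM R (M + W) = 0 ∨ 2 * crkM R (M + W) + sqs W + 2 * NU.condM M ≤ 2 * R.card + E')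
    (hP : R.card ≤ NU.condM M + 2 ^ k * P) :
    CEX B R M (E' + P + 4 ^ k * B ^ 2 + 1) := by
  classical
  intro W hW hcond
  right
  obtain ⟨n, w, hwW, hmem⟩ : ∃ (n : ℕ) (w : Fin n → ℕ),
      (∀ t : ℕ → ℕ, ∑ p, t (w p) = (W.map t).sum) ∧
      ∀ p, w p ∈ W := ⟨_, vec W, fun t => sum_vec W t, fun p => by
    unfold vec
    rw [← Multiset.mem_toList]
    exact List.get_mem _ _⟩
  obtain ⟨V, hV⟩ : ∃ V : Finset ℕ, V = univ.image w := ⟨_, rfl⟩
  have hVv : ∀ v ∈ V, 1 ≤ v ∧ v ≤ B := by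
    intro v hv
    rw [hV] at hv
    obtain ⟨p, -, hp⟩ := mem_image.1 hv
    rw [← hp]
    exact hW _ (hmem p)
  obtain ⟨T, hTd⟩ : ∃ T, T = ∑ p, (w p + 1).choose 2 := ⟨_, rfl⟩
  have hT2 : NU.condM W = T := by
    rw [hTd, hwW fun x => (x + 1).choose 2]
    rfl
  rw [hT2] at hcond ⊢
  have hq0 : 0 < 4 ^ k := by positivity
  obtain ⟨Nf, hNf⟩ : ∃ Nf : ℕ → ℕ, ∀ v, Nf v = nb w v / 4 ^ k := ⟨_, fun _ => rfl⟩
  obtain ⟨Rf, hRf⟩ : ∃ Rf : ℕ → ℕ, ∀ v, Rf v = nb w v % 4 ^ k := ⟨_, fun _ => rfl⟩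
  have hNR : ∀ v, 4 ^ k * Nf v + Rf v = nb w v := fun v => by
    rw [hNf, hRf]
    exact Nat.div_add_mod _ _
  have hRk : ∀ v, Rf v ≤ 4 ^ k := fun v => by
    rw [hRf]
    exact (Nat.mod_lt (nb w v) hq0).le
  obtain ⟨E0, hE⟩ : ∃ E0 : Multiset ℕ, E0 = ∑ v ∈ V, Multiset.replicate (Rf v) v := ⟨_, rfl⟩
  have hEsum : ∀ t : ℕ → ℕ, (E0.map t).sum = ∑ v ∈ V, Rf v * t v := by
    intro t
    rw [hE, map_sum_fin]
    refine sum_congr rfl fun v _ => ?_
    rw [Multiset.map_replicate, Multiset.sum_replicate]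
    rfl
  have hwsum : ∀ t : ℕ → ℕ, ∑ p, t (w p) = ∑ v ∈ V, nb w v * t v := by
    intro t
    rw [Finset.sum_comp t w, hV]
    rfl
  have hw : ∀ t : ℕ → ℕ, ((M + W).map t).sum =
      ((∑ v ∈ V, Multiset.replicate (4 ^ k * Nf v) v + (E0 + M)).map t).sum := by
    intro t
    rw [Multiset.map_add, Multiset.sum_add, Multiset.map_add, Multiset.sum_add, Multiset.map_add,
      Multiset.sum_add, hEsum, map_sum_fin, ← hwW, hwsum, ← add_assoc, add_comm (M.map t).sum]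
    congr 1
    rw [← sum_add_distrib]
    refine sum_congr rfl fun v _ => ?_
    rw [Multiset.map_replicate, Multiset.sum_replicate, smul_eq_mul, ← hNR v]
    ring
  obtain ⟨c, hc⟩ : ∃ c, c = (2 * R.card + (E' + P + 4 ^ k * B ^ 2 + 1) -
    2 * NU.condM M - 2 * T) / 2 := ⟨_, rfl⟩
  have hfin : crkM R (M + W) ≤ c := by
    rw [crkM_sum hw]
    refine classes_acc hpos k Nf V fun a g0 g1 hleaf => ?_
    have hlo : ∀ v ∈ V, 2 ^ k * v ≤ a v := fun v hv => (hleaf v hv).lo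
    have hhi : ∀ v ∈ V, a v + 1 ≤ 2 ^ k * (v + 1) := fun v hv => (hleaf v hv).hi
    obtain ⟨A, hM⟩ : ∃ A, A = ∑ v ∈ V, Multiset.replicate (Nf v) (a v) + E0 := ⟨_, rfl⟩
    rw [← add_assoc, ← hM, add_comm A M]
    have hMsum : ∀ t : ℕ → ℕ, (A.map t).sum = ∑ v ∈ V, (Nf v * t (a v) + Rf v * t v) := by
      intro t
      rw [hM, Multiset.map_add, Multiset.sum_add, hEsum, map_sum_fin, ← sum_add_distrib]
      refine sum_congr rfl fun v _ => ?_
      rw [Multiset.map_replicate, Multiset.sum_replicate, smul_eq_mul]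
    have hMV : ∀ x ∈ A, ∃ v ∈ V, x = a v ∨ x = v := by
      intro x hx
      rw [hM, Multiset.mem_add, hE] at hx
      rcases hx with hx | hx
      · obtain ⟨v, hv, hx⟩ := mem_sum_fin V _ x hx
        exact ⟨v, hv, Or.inl (Multiset.eq_of_mem_replicate hx)⟩
      · obtain ⟨v, hv, hx⟩ := mem_sum_fin V _ x hx
        exact ⟨v, hv, Or.inr (Multiset.eq_of_mem_replicate hx)⟩
    have h2k : 1 ≤ 2 ^ k := Nat.one_le_two_pow
    have hA : ∀ v ∈ A, 1 ≤ v ∧ v ≤ 2 ^ k * (B + 1) := by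
      intro x hx
      obtain ⟨v, hv, h | h⟩ := hMV _ hx
      · have h1 := hlo v hv
        have h2 := hVv v hv
        have h3 := hhi v hv
        have h4 : 2 ^ k * (v + 1) ≤ 2 ^ k * (B + 1) := Nat.mul_le_mul_left _ (by omega)
        have h5 : 1 * v ≤ 2 ^ k * v := Nat.mul_le_mul_right _ h2k
        constructor <;> omega
      · have h2 := hVv v hv
        have h4 : 1 * (B + 1) ≤ 2 ^ k * (B + 1) := Nat.mul_le_mul_right _ h2k
        constructor <;> omega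
    obtain ⟨X, hX⟩ : ∃ X, X = ∑ v ∈ V, Nf v * v := ⟨_, rfl⟩
    obtain ⟨e1, he1⟩ : ∃ e1, e1 = ∑ v ∈ V, Rf v * v := ⟨_, rfl⟩
    -- the sum of the multiplicities
    have hXP : 4 ^ k * X ≤ 2 ^ k * P := by
      have h1 : 4 ^ k * X ≤ ∑ v ∈ V, nb w v * (v + 1).choose 2 := by
        rw [hX, mul_sum]
        refine sum_le_sum fun v hv => ?_
        have h2 := hVv v hv
        have h3 : v ≤ (v + 1).choose 2 := by
          obtain ⟨u, rfl⟩ : ∃ u, v = u + 1 := ⟨v - 1, by omega⟩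
          rw [choose_two_succ]
          omega
        calc 4 ^ k * (Nf v * v) = (4 ^ k * Nf v) * v := by ring
          _ ≤ nb w v * v := Nat.mul_le_mul_right _ (by rw [← hNR v]; omega)
          _ ≤ _ := Nat.mul_le_mul_left _ h3
      have h2 := hwsum fun x => (x + 1).choose 2
      rw [← h2, ← hTd] at h1
      omega
    have hXP2 : 2 ^ k * X ≤ P := by
      have e : 4 ^ k * X = 2 ^ k * (2 ^ k * X) := by
        rw [show (4 : ℕ) = 2 * 2 from rfl, Nat.mul_pow]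
        ring
      rw [e] at hXP
      exact Nat.le_of_mul_le_mul_left hXP (by omega)
    have he1' : e1 ≤ 4 ^ k * B ^ 2 := by
      have h1 : e1 ≤ 4 ^ k * ∑ v ∈ V, v := by
        rw [he1, mul_sum]
        exact sum_le_sum fun v _ => Nat.mul_le_mul_right _ (hRk v)
      have h2 : ∑ v ∈ V, v ≤ B ^ 2 := by
        have h3 : ∑ v ∈ V, v ≤ ∑ v ∈ Finset.Icc 1 B, B := by
          refine (sum_le_sum fun v hv => (hVv v hv).2).trans ?_
          exact sum_le_sum_of_subset fun v hv => Finset.mem_Icc.2 (hVv v hv)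
        rw [sum_const, Nat.card_Icc, Nat.add_sub_cancel, smul_eq_mul] at h3
        rw [sq]
        exact h3
      exact h1.trans (Nat.mul_le_mul_left _ h2)
    have hsum : A.sum ≤ 2 ^ k * X + 2 * ∑ v ∈ V, g1 v + e1 := by
      have h1 := hMsum fun x => x
      rw [Multiset.map_id'] at h1
      have h2 : ∑ v ∈ V, (Nf v * a v + Rf v * v) ≤
          ∑ v ∈ V, (2 ^ k * (Nf v * v) + 2 * g1 v + Rf v * v) := by
        refine sum_le_sum fun v hv => ?_
        have h3 := leaf_lin' (hVv v hv).1 (hlo v hv) (hleaf v hv).cd (hleaf v hv).gain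
        omega
      rw [sum_add_distrib, sum_add_distrib, sum_add_distrib, ← mul_sum, ← mul_sum, ← hX, ← he1]
        at h2
      rw [h1, sum_add_distrib, ← he1]
      exact h2
    have hcdA : NU.condM A + ∑ v ∈ V, g0 v = T + ∑ v ∈ V, g1 v := by
      have h1 := hMsum fun x => (x + 1).choose 2
      have h2 := hwsum fun x => (x + 1).choose 2
      have h3 : NU.condM A = ∑ v ∈ V, (Nf v * (a v + 1).choose 2 + Rf v * (v + 1).choose 2) := h1
      rw [h3, hTd, h2, ← sum_add_distrib, ← sum_add_distrib]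
      refine sum_congr rfl fun v hv => ?_
      have h4 := (hleaf v hv).cd
      have e : nb w v * (v + 1).choose 2 = 4 ^ k * Nf v * (v + 1).choose 2 +
          Rf v * (v + 1).choose 2 := by
        rw [← hNR v]
        ring
      omega
    have h2c := two_condM A
    rcases hcr A hA with h0 | h0
    · rw [h0]
      exact Nat.zero_le _
    · omega
  omega

/-- the error term of the exactness theorem -/
def bigE (μ k P E' : ℕ) : ℕ :=
  64 * (μ + 1) ^ 2 * (E' + P + 4 ^ k * (64 * (μ + 1) ^ 2) + 3)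

/-- **Exactness from crude emptiness.** -/
theorem ex_of_crude {μ k P E' δ : ℕ} {R : Finset (ℤ × ℤ)} {M W : Multiset ℕ}
    (hpos : ∀ u ∈ R, 0 ≤ u.1 ∧ 0 ≤ u.2) (hind : crkM R M + NU.condM M ≤ R.card)
    (hcr : ∀ W : Multiset ℕ, (∀ v ∈ W, 1 ≤ v ∧ v ≤ 2 ^ k * (8 * (μ + 1))) →
      crkM R (M + W) = 0 ∨ 2 * crkM R (M + W) + sqs W + 2 * NU.condM M ≤ 2 * R.card + E')
    (hP : R.card ≤ NU.condM M + 2 ^ k * P)
    (hW : ∀ v ∈ W, 1 ≤ v ∧ v ≤ μ)
    (hδ : 2 * R.card = 2 * NU.condM M + 2 * NU.condM W + δ ∨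
      2 * R.card + δ = 2 * NU.condM M + 2 * NU.condM W)
    (h : 8 * bigE μ k P E' + 320 * (μ + 1) ^ 2 ≤ W.sum + 2 * δ) :
    crkM R (M + W) ≤ R.card - (NU.condM M + NU.condM W) := by
  obtain ⟨B, hB⟩ : ∃ B, B + 1 = 8 * (μ + 1) := ⟨8 * (μ + 1) - 1, by omega⟩
  have hcx := cex_of_crude (B := B) (k := k) (P := P) (E' := E') hpos (by rw [hB]; exact hcr) hP
  have hind2 := ind_of_cex hpos hind hcx
  obtain ⟨Y, hY⟩ : ∃ Y, Y = (μ + 1) ^ 2 := ⟨_, rfl⟩
  have hY1 : 1 ≤ Y := by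
    rw [hY]
    exact Nat.one_le_pow _ _ (by omega)
  have hB2 : B ^ 2 ≤ 64 * Y := by
    have h1 : B ≤ 8 * (μ + 1) := by omega
    calc B ^ 2 ≤ (8 * (μ + 1)) ^ 2 := Nat.pow_le_pow_left h1 2
      _ = 64 * Y := by rw [hY]; ring
  have h2B : 2 * (B + 1).choose 2 ≤ 64 * Y := by
    have h1 : 2 * (B + 1).choose 2 = B * (B + 1) := by
      rw [Nat.choose_two_right, Nat.add_sub_cancel, Nat.mul_div_cancel', mul_comm]
      rw [mul_comm]
      exact (Nat.even_mul_succ_self _).two_dvd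
    rw [h1]
    calc B * (B + 1) ≤ (B + 1) * (B + 1) := Nat.mul_le_mul_right _ (by omega)
      _ = 64 * Y := by rw [hB, hY]; ring
  obtain ⟨E2, hE2⟩ : ∃ E2, E2 = E' + P + 4 ^ k * B ^ 2 + 1 := ⟨_, rfl⟩
  have hEb : 2 * ((E2 + 2) * (B + 1).choose 2) ≤ bigE μ k P E' := by
    unfold bigE
    rw [← hY]
    have h1 : E2 + 2 ≤ E' + P + 4 ^ k * (64 * Y) + 3 := by
      have := Nat.mul_le_mul_left (4 ^ k) hB2
      omega
    calc 2 * ((E2 + 2) * (B + 1).choose 2) = (E2 + 2) * (2 * (B + 1).choose 2) := by ring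
      _ ≤ (E' + P + 4 ^ k * (64 * Y) + 3) * (64 * Y) := Nat.mul_le_mul h1 h2B
      _ = _ := by ring
  have hE1 : E' ≤ bigE μ k P E' := by
    unfold bigE
    rw [← hY]
    calc E' ≤ E' + P + 4 ^ k * (64 * Y) + 3 := by omega
      _ = 1 * (E' + P + 4 ^ k * (64 * Y) + 3) := (one_mul _).symm
      _ ≤ _ := Nat.mul_le_mul_right _ (by omega)
  refine ex_big (E := bigE μ k P E') hpos ?_ ?_ hW hδ h
  · intro W' hW'
    have h2k : 1 ≤ 2 ^ k := Nat.one_le_two_pow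
    rcases hcr W' fun v hv => ⟨(hW' v hv).1, by
        have h4 : 1 * (8 * (μ + 1)) ≤ 2 ^ k * (8 * (μ + 1)) := Nat.mul_le_mul_right _ h2k
        have := (hW' v hv).2
        omega⟩ with h0 | h0
    · exact Or.inl h0
    · right
      omega
  · intro W' hW' hs
    refine hind2 W' (fun v hv => by have := hW' v hv; omega) ?_
    have h1 := sq1_eq W'
    have h2 := two_condM W'
    rw [← hE2]
    omega

end Pool.Agent.H879.Star
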