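import Pool.Agent.H879.Star.Num
import Pool.Agent.H879.Room.Fin
import Pool.Graph.R_pool_sql_team_seeded_35f281b4.K7.H33.BP.NinePts
import Pool.Graph.R_pool_sql_team_seeded_2aa45f1a.Q310.FP.Fourth

/-! Standard classes whose degree is large with respect to the tenth multiplicity. -/

set_option autoImplicit false

namespace Pool.Agent.H879.Star

open Finset Pool.Agent.TH176.Nag Pool.Agent.TH603.Sur H932R3
open Pool.Agent.TH2 Pool.Agent.TH2.NU Pool.Agent.Y205.MD Pool.Agent.Y205.FW Pool.Agent.Y205.AV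
open Pool.Agent.K7.H33.BP
open Pool.Agent.TH387.SH (TF coe_TF card_TF)

/-- from the multisets to the vectors -/
theorem crit_of_crkM {n : ℕ} {w : Fin n → ℕ} {I : Finset (Fin n)} {d μ k : ℕ}
    (hμ : ∀ i, i ∉ I → w i ≤ μ) {M9 : Multiset ℕ}
    (hMk : I.val.map w + Multiset.replicate k 0 = M9)
    (key : ∀ (W : Multiset ℕ) (g : ℕ), (∀ v ∈ W, 1 ≤ v ∧ v ≤ μ) →
      (2 * (TF d).card = 2 * NU.condM M9 + 2 * NU.condM W + g ∨
        2 * (TF d).card + g = 2 * NU.condM M9 + 2 * NU.condM W) →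
      crkM (TF d) (M9 + W) ≤ (TF d).card - (NU.condM M9 + NU.condM W)) :
    ((d + 1) * (d + 2) ≤ ∑ p, w p * (w p + 1) → Emp w (TZ d)) ∧
      (∑ p, w p * (w p + 1) ≤ (d + 1) * (d + 2) → Sur w (TZ d)) := by
  classical
  obtain ⟨M, hM⟩ : ∃ M, M = I.val.map w := ⟨_, rfl⟩
  obtain ⟨W0, hW0⟩ : ∃ W0, W0 = (Iᶜ).val.map w := ⟨_, rfl⟩
  obtain ⟨W, hW⟩ : ∃ W, W = W0.filter fun v => v ≠ 0 := ⟨_, rfl⟩
  have hall : ∀ t : ℕ → ℕ, ∑ p, t (w p) = ((M + W0).map t).sum := by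
    intro t
    rw [Multiset.map_add, Multiset.sum_add, hM, hW0, Multiset.map_map, Multiset.map_map,
      ← sum_add_sum_compl I]
    rfl
  have hfil : ∀ t : ℕ → ℕ, t 0 = 0 → (W0.map t).sum = (W.map t).sum := by
    intro t ht
    rw [hW]
    clear hW hall hW0
    induction W0 using Multiset.induction_on with
    | empty => simp
    | cons a W0 ih =>
      by_cases ha : a = 0
      · subst ha
        rw [Multiset.filter_cons_of_neg _ (by simp), Multiset.map_cons, Multiset.sum_cons, ht,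
          zero_add, ih]
      · rw [Multiset.filter_cons_of_pos _ (by simpa using ha), Multiset.map_cons,
          Multiset.sum_cons, Multiset.map_cons, Multiset.sum_cons, ih]
  have hcond : cond w = NU.condM (M + W) := by
    have h1 := hall fun x => (x + 1).choose 2
    have h2 := hfil (fun x => (x + 1).choose 2) (by norm_num)
    unfold Pool.Agent.TH603.Sur.cond Pool.Agent.TH2.NU.condM
    rw [h1, Multiset.map_add, Multiset.sum_add, h2, Multiset.map_add, Multiset.sum_add]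
  have hc2 := Pool.Agent.Y205.AV.two_sum w
  have hcw : cond w = ∑ p, (w p + 1).choose 2 := rfl
  have hWμ : ∀ v ∈ W, 1 ≤ v ∧ v ≤ μ := by
    intro v hv
    rw [hW, Multiset.mem_filter, hW0, Multiset.mem_map] at hv
    obtain ⟨⟨i, hi, rfl⟩, h2⟩ := hv
    exact ⟨by omega, hμ i (mem_compl.1 hi)⟩
  rw [← hM] at hMk
  have hck : NU.condM (M + Multiset.replicate k 0) = NU.condM M := by
    rw [NU.condM_add]
    have : NU.condM (Multiset.replicate k 0) = 0 := by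
      unfold Pool.Agent.TH2.NU.condM
      rw [Multiset.map_replicate, Multiset.sum_replicate]
      norm_num
    omega
  have hadd : NU.condM (M + W) = NU.condM M + NU.condM W := NU.condM_add _ _
  subst hMk
  have hgap : ∃ g : ℕ, 2 * (TF d).card = 2 * NU.condM (M + Multiset.replicate k 0) +
        2 * NU.condM W + g ∨
      2 * (TF d).card + g = 2 * NU.condM (M + Multiset.replicate k 0) + 2 * NU.condM W := by
    rcases le_total (2 * (TF d).card) (2 * NU.condM (M + Multiset.replicate k 0) +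
      2 * NU.condM W) with h | h
    · exact ⟨_, Or.inr (Nat.add_sub_cancel' h)⟩
    · exact ⟨_, Or.inl (Nat.add_sub_cancel' h).symm⟩
  obtain ⟨g, hg⟩ := hgap
  have key := key W g hWμ hg
  have hzero : crkM (TF d) (M + W) ≤ crkM (TF d) (M + Multiset.replicate k 0 + W) := by
    have := crkM_zeros (S := TF d) k (M + W)
    rw [add_right_comm] at this
    exact this
  have hex : Ex (TF d) w := by
    unfold Pool.Agent.Y205.FW.Ex
    rw [← crkM_eq hall, hcond, hadd, ← hck]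
    refine le_trans ?_ (hzero.trans key)
    rw [hW]
    refine crkM_filter (fun m hm => ?_) _ _
    rw [mem_TF] at hm
    exact ⟨hm.1, hm.2.1⟩
  have hTF := two_card_TF d
  constructor
  · intro hle
    have hE : Emp w (↑(TF d) : Set (ℤ × ℤ)) := Emp_of_Ex hex (by omega)
    rw [coe_TF] at hE
    exact hE
  · intro hle
    have hS : Sur w (↑(TF d) : Set (ℤ × ℤ)) := Sur_of_Ex hex (by omega)
    rw [coe_TF] at hS
    exact hS

/-- the reduced class of eight multiplicities -/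
theorem room_eight {e b1 b2 b3 b4 b5 b6 b7 b8 s δ B : ℤ} (h23 : b3 ≤ b2)
    (h34 : b4 ≤ b3) (h45 : b5 ≤ b4) (h56 : b6 ≤ b5) (h67 : b7 ≤ b6) (h78 : b8 ≤ b7)
    (h8 : 0 ≤ b8) (hs : s = e - b1) (hs0 : b2 + b3 ≤ s) (hs3 : 3 * s < 2 * e)
    (hδ : δ = 3 * e - (b1 + b2 + b3 + b4 + b5 + b6 + b7 + b8))
    (hB : B = e ^ 2 - (b1 ^ 2 + b2 ^ 2 + b3 ^ 2 + b4 ^ 2 + b5 ^ 2 + b6 ^ 2 + b7 ^ 2 +
    b8 ^ 2)) : s * e ≤ 6 * B ∧ e ≤ 3 * δ ∧ 0 ≤ s ∧ 0 ≤ e := by
  have hb30 : 0 ≤ b3 := by linarith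
  have he0 : 0 ≤ s := by linarith
  have sq_le : ∀ b : ℤ, 0 ≤ b → b ≤ b3 → b ^ 2 ≤ b3 ^ 2 := fun b h1 h2 =>
    pow_le_pow_left₀ h1 h2 2
  have q4 := sq_le b4 (by linarith) (by linarith)
  have q5 := sq_le b5 (by linarith) (by linarith)
  have q6 := sq_le b6 (by linarith) (by linarith)
  have q7 := sq_le b7 (by linarith) (by linarith)
  have q8 := sq_le b8 (by linarith) (by linarith)
  have hq : 4 * (b2 ^ 2 + 6 * b3 ^ 2) ≤ 7 * s ^ 2 := by
    have h1 : b3 * b3 ≤ b2 * b3 := mul_le_mul_of_nonneg_right h23 hb30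
    have h2 : (b2 + b3) ^ 2 ≤ s ^ 2 := pow_le_pow_left₀ (by linarith) hs0 2
    have h3 : (2 * b3) ^ 2 ≤ s ^ 2 := pow_le_pow_left₀ (by linarith) (by linarith) 2
    have e1 : (b2 + b3) ^ 2 = b2 ^ 2 + 2 * (b2 * b3) + b3 ^ 2 := by ring
    have e2 : (2 * b3) ^ 2 = 4 * b3 ^ 2 := by ring
    have e3 : b3 * b3 = b3 ^ 2 := by ring
    rw [e1] at h2
    rw [e2] at h3
    rw [e3] at h1
    linarith
  have hB1 : s * (8 * e - 11 * s) ≤ 4 * B := by
    have h1 : e ^ 2 - (b1 ^ 2 + b2 ^ 2 + 6 * b3 ^ 2) ≤ B := by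
      rw [hB]
      linarith
    have h2 : b1 = e - s := by linarith
    rw [h2] at h1
    have e1 : e ^ 2 - ((e - s) ^ 2 + b2 ^ 2 + 6 * b3 ^ 2) =
      2 * (e * s) - s ^ 2 - (b2 ^ 2 + 6 * b3 ^ 2) := by ring
    rw [e1] at h1
    have e2 : s * (8 * e - 11 * s) = 8 * (e * s) - 11 * s ^ 2 := by ring
    rw [e2]
    linarith
  have hB2 : s * e ≤ 6 * B := by
    have h1 : s * (3 * s) ≤ s * (2 * e) := mul_le_mul_of_nonneg_left (by linarith) he0
    have e1 : s * (8 * e - 11 * s) = 8 * (s * e) - 11 * (s * s) := by ring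
    have e2 : s * (3 * s) = 3 * (s * s) := by ring
    have e3 : s * (2 * e) = 2 * (s * e) := by ring
    rw [e1] at hB1
    rw [e2, e3] at h1
    linarith
  exact ⟨hB2, by linarith, he0, by linarith⟩

/-- The room of nine sorted multiplicities with `3 a1 > d`. -/
theorem room_nine {d a1 a2 a3 a4 a5 a6 a7 a8 a9 : ℤ} (h23 : a3 ≤ a2)
    (h34 : a4 ≤ a3) (h45 : a5 ≤ a4) (h56 : a6 ≤ a5) (h67 : a7 ≤ a6) (h78 : a8 ≤ a7) (h89 : a9 ≤ a8)
    (h9 : 0 ≤ a9) (hd : a1 + a2 + a3 ≤ d) (hbig : d < 3 * a1) {R : ℤ}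
    (hR : R = (d + 1) * (d + 2) - (a1 * (a1 + 1) + a2 * (a2 + 1) + a3 * (a3 + 1) +
      a4 * (a4 + 1) + a5 * (a5 + 1) + a6 * (a6 + 1) + a7 * (a7 + 1) + a8 * (a8 + 1) +
      a9 * (a9 + 1))) :
    1 ≤ 3 * d - (a1 + a2 + a3 + a4 + a5 + a6 + a7 + a8 + a9) ∧
      2 * (a9 * (3 * d - (a1 + a2 + a3 + a4 + a5 + a6 + a7 + a8 + a9))) ≤ R ∧
      (12 * a9 < d → d * (d - a1) ≤ 8 * R) := by
  obtain ⟨δ, hδ⟩ : ∃ δ, δ = 3 * d - (a1 + a2 + a3 + a4 + a5 + a6 + a7 + a8 + a9) := ⟨_, rfl⟩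
  have hδ1 : 1 ≤ δ := by
    have : 0 < δ := by linarith
    exact this
  obtain ⟨e, he⟩ : ∃ e, e = d - 3 * a9 := ⟨_, rfl⟩
  obtain ⟨B, hB⟩ : ∃ B, B = e ^ 2 - ((a1 - a9) ^ 2 + (a2 - a9) ^ 2 + (a3 - a9) ^ 2 +
    (a4 - a9) ^ 2 + (a5 - a9) ^ 2 + (a6 - a9) ^ 2 + (a7 - a9) ^ 2 + (a8 - a9) ^ 2) := ⟨_, rfl⟩
  have hRB : R = 2 * (a9 * δ) + B + δ + 2 := by
    rw [hR, hB, hδ, he]
    ring
  obtain ⟨s, hs⟩ : ∃ s, s = e - (a1 - a9) := ⟨_, rfl⟩
  obtain ⟨g1, g2, g3, g4⟩ := room_eight (e := e) (b1 := a1 - a9) (b2 := a2 - a9) (b3 := a3 - a9)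
    (b4 := a4 - a9) (b5 := a5 - a9) (b6 := a6 - a9) (b7 := a7 - a9) (b8 := a8 - a9) (s := s)
    (δ := δ) (B := B) (by linarith) (by linarith) (by linarith) (by linarith) (by linarith)
    (by linarith) (by linarith) hs (by linarith) (by linarith) (by linarith) hB
  have hB0 : 0 ≤ B := by
    have : 0 ≤ s * e := mul_nonneg g3 g4
    linarith
  rw [← hδ]
  refine ⟨hδ1, by linarith, fun h12a => ?_⟩
  have hk : d - a1 = s + 2 * a9 := by linarith
  rw [hk]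
  have he4 : 3 * d ≤ 4 * e := by linarith
  have h1 : a9 * e ≤ a9 * (3 * δ) := mul_le_mul_of_nonneg_left g2 h9
  have h2 : 3 * d * (s + 2 * a9) ≤ 4 * e * (s + 2 * a9) :=
    mul_le_mul_of_nonneg_right he4 (by linarith)
  have h3 : 0 ≤ a9 * e := mul_nonneg h9 g4
  have e1 : a9 * (3 * δ) = 3 * (a9 * δ) := by ring
  have e2 : 3 * d * (s + 2 * a9) = 3 * (d * (s + 2 * a9)) := by ring
  have e3 : 4 * e * (s + 2 * a9) = 4 * (s * e) + 8 * (a9 * e) := by ring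
  rw [e1] at h1
  rw [e2, e3] at h2
  linarith

end Pool.Agent.H879.Star
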