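import Pool.Graph.R_pool_sql_team_seeded_35f281b4.K7.H33.BP.Big
import Pool.Graph.R_seed8.Y205.MD.Sub

/-! Crude independence from approximate emptiness: generic ranks are submodular. -/

set_option autoImplicit false

namespace Pool.Agent.H879.Star

open Finset Pool.Agent.TH176.Nag Pool.Agent.TH603.Sur Pool.Agent.TH2 Pool.Agent.TH2.NU
open Pool.Agent.Y205.MD Pool.Agent.Y205.FW Pool.Agent.Y205.AV Pool.Agent.K7.H33.BP

section

variable {S : Finset (ℤ × ℤ)}

theorem crk_zero_vec {ι : Type} : S.card ≤ crk S (fun _ : ι => 0) := by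
  obtain ⟨T, h1, h2, h3⟩ := crk_spec S (fun _ : ι => 0)
  rcases T.eq_empty_or_nonempty with h | ⟨m, hm⟩
  · subst h
    rw [card_empty] at h2
    omega
  · exfalso
    obtain ⟨K, _, _, x, y, hx, hy, hf⟩ := h3
    have h4 := hf (Finsupp.single m 1) (by
      intro p hp
      rw [mem_coe, Finsupp.mem_support_iff] at hp
      have : p = m := by
        by_contra hc
        exact hp (Finsupp.single_eq_of_ne hc)
      rw [this]
      exact mem_coe.2 hm) (fun i => LM_of_mono fun a b hab => by simp at hab)
    exact one_ne_zero (Finsupp.single_eq_zero.1 h4)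

/-- the naive lower bound -/
theorem card_le_crkM (hpos : ∀ u ∈ S, 0 ≤ u.1 ∧ 0 ≤ u.2) (N : Multiset ℕ) :
    S.card ≤ crkM S N + NU.condM N := by
  have h1 := crk_cond hpos (∑ i, vec N i) (w := fun _ => 0) (v := vec N) (fun i => Nat.zero_le _)
    (by simp)
  have h2 : cond (fun _ : Fin N.toList.length => 0) = 0 := by
    unfold Pool.Agent.TH603.Sur.cond
    simp
  have h3 := crk_zero_vec (S := S) (ι := Fin N.toList.length)
  rw [h2, cond_vec] at h1
  unfold crkM
  omega

theorem crkM_three (N : Multiset ℕ) (i t u : ℕ) :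
    crkM S (N + Multiset.replicate i t + {u}) =
      crk S (Sum.elim (Sum.elim (vec N) (fun _ : Fin i => t)) (fun _ : Unit => u)) := by
  refine crkM_eq fun f => ?_
  rw [Fintype.sum_sum_type, Fintype.sum_sum_type, Multiset.map_add, Multiset.sum_add,
    Multiset.map_add, Multiset.sum_add, Multiset.map_replicate, Multiset.sum_replicate, ← sum_vec]
  simp

theorem update_inr {α : Type} [DecidableEq α] (w : α → ℕ) (u v : ℕ) :
    Function.update (Sum.elim w (fun _ : Unit => u)) (Sum.inr ()) v =
      Sum.elim w (fun _ : Unit => v) := by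
  funext x
  rcases x with x | x
  · rw [Function.update_of_ne (by simp)]
    rfl
  · have : (Sum.inr x : α ⊕ Unit) = Sum.inr () := rfl
    rw [this, Function.update_self]
    rfl

/-- the marginal rank does not increase -/
theorem marg (hpos : ∀ u ∈ S, 0 ≤ u.1 ∧ 0 ≤ u.2) (N : Multiset ℕ) (i s : ℕ) :
    crkM S (N + Multiset.replicate i (s + 1) + {s}) + crkM S (N + {s + 1}) ≤
      crkM S (N + {s}) + crkM S (N + Multiset.replicate i (s + 1) + {s + 1}) := by
  classical
  have h1 := crk_super hpos
    (w := Sum.elim (Sum.elim (vec N) (fun _ : Fin i => 0)) (fun _ : Unit => s))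
    (w' := Sum.elim (Sum.elim (vec N) (fun _ : Fin i => s + 1)) (fun _ : Unit => s))
    (by rintro ((j | j) | j) <;> simp) (Sum.inr ()) (s + 1) (by simp)
  rw [update_inr, update_inr, ← crkM_three, ← crkM_three, ← crkM_three, ← crkM_three] at h1
  have h2 : crkM S (N + Multiset.replicate i 0 + {s}) ≤ crkM S (N + {s}) := by
    have := crkM_more hpos (N + {s}) (Multiset.replicate i 0)
    rwa [add_right_comm] at this
  have h3 : crkM S (N + {s + 1}) ≤ crkM S (N + Multiset.replicate i 0 + {s + 1}) := by
    have := crkM_zeros (S := S) i (N + {s + 1})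
    rwa [add_right_comm] at this
  omega

/-- the number of conditions of one point -/
theorem crkM_drop (hpos : ∀ u ∈ S, 0 ≤ u.1 ∧ 0 ≤ u.2) (N : Multiset ℕ) (u : ℕ) :
    crkM S N ≤ crkM S (N + {u}) + (u + 1).choose 2 := by
  have h1 := crk_cond hpos u (w := Sum.elim (vec N) (fun _ : Unit => 0))
    (v := Sum.elim (vec N) (fun _ : Unit => u)) (by rintro (j | j) <;> simp)
    (by rw [Fintype.sum_sum_type, Fintype.sum_sum_type]; simp)
  have h2 : ∀ v, cond (Sum.elim (vec N) (fun _ : Unit => v)) = NU.condM N + (v + 1).choose 2 := by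
    intro v
    unfold Pool.Agent.TH603.Sur.cond
    rw [Fintype.sum_sum_type]
    simp only [Sum.elim_inl, Sum.elim_inr, univ_unique, sum_const, card_singleton, one_smul]
    rw [sum_vec N fun x => (x + 1).choose 2]
    rfl
  have h3 : ∀ v, crkM S (N + {v}) = crk S (Sum.elim (vec N) (fun _ : Unit => v)) := by
    intro v
    refine crkM_eq fun f => ?_
    rw [Fintype.sum_sum_type, Multiset.map_add, Multiset.sum_add, ← sum_vec]
    simp
  rw [h2, h2, ← h3, ← h3] at h1
  have h4 : crkM S N ≤ crkM S (N + {0}) := crkM_zero N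
  have h5 : (0 + 1).choose 2 = 0 := by decide
  rw [h5] at h1
  omega

theorem choose_two_succ (s : ℕ) : (s + 1 + 1).choose 2 = (s + 1).choose 2 + (s + 1) := by
  rw [Nat.choose_succ_succ' (s + 1) 1, Nat.choose_one_right]
  ring

theorem condM_rep (i t : ℕ) : NU.condM (Multiset.replicate i t) = i * (t + 1).choose 2 := by
  unfold Pool.Agent.TH2.NU.condM
  rw [Multiset.map_replicate, Multiset.sum_replicate, smul_eq_mul]

/-- a deficient point stays deficient -/
theorem defic (hpos : ∀ u ∈ S, 0 ≤ u.1 ∧ 0 ≤ u.2) {N : Multiset ℕ} {s : ℕ}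
    (h : crkM S (N + {s}) ≤ crkM S (N + {s + 1}) + s) (i : ℕ) :
    crkM S N + i ≤ crkM S (N + Multiset.replicate i (s + 1)) + i * (s + 1 + 1).choose 2 := by
  induction i with
  | zero => simp
  | succ i ih =>
    have h1 := marg hpos N i s
    have h2 := crkM_drop hpos (N + Multiset.replicate i (s + 1)) s
    have h3 : N + Multiset.replicate (i + 1) (s + 1) =
        N + Multiset.replicate i (s + 1) + {s + 1} := by
      rw [Multiset.replicate_succ, add_assoc, add_comm (Multiset.replicate i (s + 1)),
        Multiset.singleton_add]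
    have h4 := choose_two_succ s
    have e : (i + 1) * (s + 1 + 1).choose 2 = i * (s + 1 + 1).choose 2 + (s + 1 + 1).choose 2 := by
      ring
    rw [h3, e]
    omega

end

/-- approximate emptiness -/
def CEX (B : ℕ) (R : Finset (ℤ × ℤ)) (M : Multiset ℕ) (E : ℕ) : Prop :=
  ∀ W : Multiset ℕ, (∀ v ∈ W, 1 ≤ v ∧ v ≤ B) → NU.condM M + NU.condM W ≤ R.card →
    crkM R (M + W) = 0 ∨ 2 * crkM R (M + W) + 2 * NU.condM M + 2 * NU.condM W ≤ 2 * R.card + E

/-- **Crude independence from approximate emptiness.** -/
theorem ind_of_cex {B E : ℕ} {R : Finset (ℤ × ℤ)} {M : Multiset ℕ}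
    (hpos : ∀ u ∈ R, 0 ≤ u.1 ∧ 0 ≤ u.2) (hind : crkM R M + NU.condM M ≤ R.card)
    (hc : CEX B R M E) (W : Multiset ℕ) (hW : ∀ v ∈ W, v ≤ B)
    (hsl : NU.condM M + NU.condM W + (E + 2) * (B + 1).choose 2 ≤ R.card) :
    crkM R (M + W) + NU.condM M + NU.condM W ≤ R.card := by
  -- first the positive multiplicities
  have key : ∀ W : Multiset ℕ, (∀ v ∈ W, 1 ≤ v ∧ v ≤ B) →
      NU.condM M + NU.condM W + (E + 2) * (B + 1).choose 2 ≤ R.card →
      crkM R (M + W) + NU.condM M + NU.condM W ≤ R.card := by
    intro W
    induction W using Multiset.induction_on with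
    | empty =>
      intro _ _
      rw [add_zero, condM_zero]
      omega
    | cons a W ih =>
      intro hW hsl
      have hca : NU.condM (a ::ₘ W) = (a + 1).choose 2 + NU.condM W := by
        unfold Pool.Agent.TH2.NU.condM
        rw [Multiset.map_cons, Multiset.sum_cons]
      have hIH := ih (fun v hv => hW v (Multiset.mem_cons_of_mem hv)) (by omega)
      by_contra hcon
      -- the first deficient step
      have hex : ∃ t, t ≤ a ∧ R.card < crkM R (M + W + {t}) + NU.condM M + NU.condM W +
          (t + 1).choose 2 := by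
        refine ⟨a, le_rfl, ?_⟩
        have e : M + W + {a} = M + a ::ₘ W := by
          rw [← Multiset.singleton_add, add_assoc, add_comm W]
        rw [e]
        omega
      obtain ⟨t, ht⟩ : ∃ t, t = Nat.find hex := ⟨_, rfl⟩
      obtain ⟨ht1, ht2⟩ := Nat.find_spec hex
      rw [← ht] at ht1 ht2
      rcases t with _ | s
      · have h1 : crkM R (M + W + {0}) ≤ crkM R (M + W) := crkM_more hpos _ _
        have h5 : (0 + 1).choose 2 = 0 := by decide
        rw [h5] at ht2
        omega
      · have hs := Nat.find_min hex (m := s) (by omega)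
        push Not at hs
        have hs2 := hs (by omega)
        have h4 := choose_two_succ s
        have hdef := defic hpos (N := M + W) (s := s) (by omega) (E + 1)
        have hlow := card_le_crkM hpos (M + W)
        rw [NU.condM_add] at hlow
        -- the approximate emptiness for the large multiset
        have hsB : s + 1 ≤ B := by
          have := (hW a (Multiset.mem_cons_self a W)).2
          omega
        have hch : (s + 1 + 1).choose 2 ≤ (B + 1).choose 2 := Nat.choose_le_choose 2 (by omega)
        have hpos1 : 1 ≤ (s + 1 + 1).choose 2 := by omega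
        have hm1 : (E + 2) * (s + 1 + 1).choose 2 ≤ (E + 2) * (B + 1).choose 2 :=
          Nat.mul_le_mul_left _ hch
        have e2 : (E + 2) * (s + 1 + 1).choose 2 =
            (E + 1) * (s + 1 + 1).choose 2 + (s + 1 + 1).choose 2 := by ring
        have hW' : NU.condM (W + Multiset.replicate (E + 1) (s + 1)) =
            NU.condM W + (E + 1) * (s + 1 + 1).choose 2 := by
          rw [NU.condM_add, condM_rep]
        rcases hc (W + Multiset.replicate (E + 1) (s + 1)) (by
            intro v hv
            rcases Multiset.mem_add.1 hv with h | h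
            · exact hW v (Multiset.mem_cons_of_mem h)
            · rw [Multiset.eq_of_mem_replicate h]
              omega) (by
            rw [hW']
            omega) with h6 | h6
        · rw [← add_assoc] at h6
          omega
        · rw [← add_assoc, hW'] at h6
          omega
  -- the zeros
  have hz : ∃ W1 k, W = W1 + Multiset.replicate k 0 ∧ ∀ v ∈ W1, 1 ≤ v ∧ v ≤ B := by
    refine ⟨W.filter (fun v => v ≠ 0), Multiset.card (W.filter fun v => ¬ v ≠ 0), ?_, ?_⟩
    · conv_lhs => rw [← Multiset.filter_add_not (fun v => v ≠ 0) W]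
      congr 1
      rw [Multiset.eq_replicate]
      refine ⟨rfl, fun b hb => ?_⟩
      have := (Multiset.mem_filter.1 hb).2
      push Not at this
      exact this
    · intro v hv
      obtain ⟨h1, h2⟩ := Multiset.mem_filter.1 hv
      exact ⟨by omega, hW v h1⟩
  obtain ⟨W1, k, rfl, h1⟩ := hz
  have h0 : NU.condM (Multiset.replicate k 0) = 0 := by
    rw [condM_rep]
    simp
  rw [NU.condM_add, h0, add_zero] at hsl ⊢
  have h2 := key W1 h1 hsl
  have h3 := crkM_more hpos (M + W1) (Multiset.replicate k 0)
  rw [add_assoc] at h3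
  omega

end Pool.Agent.H879.Star
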